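import Mathlib

/-!
# Reflection convolution on the sphere: definitions

`E` is a finite dimensional real inner product space, `om E` the surface measure of its unit sphere, as a measure on `E` (concentrated on unit vectors).
`sg u` is the reflection across the hyperplane orthogonal to `u` (for unit vectors `u`).
-/

set_option autoImplicit false

open MeasureTheory
open scoped ENNReal NNReal

namespace RC

section pre

variable {E : Type*} [NormedAddCommGroup E] [InnerProductSpace ℝ E]

/-- reflection across the hyperplane orthogonal to the unit vector `u` -/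
def sg (u y : E) : E := y - (2 * inner ℝ y u) • u

/-- the open cap of all `x` with `r < ⟪x, a⟫` -/
def cap (a : E) (r : ℝ) : Set E := {x | r < inner ℝ x a}

/-- the open band of all `x` with `|⟪x, a⟫| < b` -/
def band (a : E) (b : ℝ) : Set E := {x | |inner ℝ x a| < b}

/-- polarisation of the set `A` towards `N` by the reflection `sg w`: of the two points `x`, `sg w x` the one
nearer to `N` is preferred -/
def pol (N w : E) (A : Set E) : Set E :=
  {x | (x ∈ A ∧ sg w x ∈ A) ∨ (inner ℝ (sg w x) N < inner ℝ x N ∧ (x ∈ A ∨ sg w x ∈ A)) ∨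
    (inner ℝ (sg w x) N = inner ℝ x N ∧ x ∈ A)}

end pre

variable (E : Type*) [NormedAddCommGroup E] [InnerProductSpace ℝ E] [MeasurableSpace E]
  [BorelSpace E] [FiniteDimensional ℝ E]

/-- the surface measure of the unit sphere of `E`, as a measure on `E` -/
noncomputable def om : Measure E := (volume : Measure E).toSphere.map Subtype.val

variable {E}

/-- the measure of the part of `A` in the cap with centre `x` -/
noncomputable def kk (A : Set E) (r : ℝ) (x : E) : ℝ := (om E).real (A ∩ cap x r)

/-- the density of the image of `om E` under `u ↦ sg u a` -/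
noncomputable def W (a x : E) : ℝ≥0∞ := (‖x - a‖ₑ⁻¹) ^ (Module.finrank ℝ E - 2)

/-- the functional of Baernstein-Taylor type -/
noncomputable def J (l r : ℝ) (N : E) (A : Set E) : ℝ≥0∞ :=
  ∫⁻ u, ENNReal.ofReal (kk A r (sg u N) - l) ∂(om E)

/-- the moment of `A` in the direction `N` -/
noncomputable def Vp (N : E) (A : Set E) : ℝ≥0∞ :=
  ∫⁻ x in A, ENNReal.ofReal (1 + inner ℝ x N) ∂(om E)

open Classical in
/-- the gain of `Vp` under the polarisation by `sg w` -/
noncomputable def gain (N : E) (A : Set E) (w : E) : ℝ≥0∞ :=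
  ∫⁻ x, (if x ∉ A ∧ sg w x ∈ A then ENNReal.ofReal (inner ℝ x N - inner ℝ (sg w x) N) else 0) ∂(om E)

open Classical in
/-- the disorder of `A` -/
noncomputable def DD (N : E) (A : Set E) : ℝ≥0∞ :=
  ∫⁻ x, ∫⁻ y, (if x ∉ A ∧ y ∈ A then ENNReal.ofReal (inner ℝ x N - inner ℝ y N) else 0) ∂(om E) ∂(om E)

/-- the reflection convolution of two functions with values in `[0,∞)` -/
noncomputable def conv (f g : E → ℝ≥0) (u : E) : ℝ≥0∞ :=
  ∫⁻ y, (f y : ℝ≥0∞) * (g (sg u y) : ℝ≥0∞) ∂(om E)

/-- the reflection convolution of the indicator functions of two sets -/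
noncomputable def convS (A B : Set E) (u : E) : ℝ≥0∞ := om E (A ∩ {y | sg u y ∈ B})

end RC
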