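import Mathlib
import Pool.Agent.Lib.MP_91315a_an.Defs
import Pool.Agent.Lib.MP_be97b2_co.SphereMeasure

section

/-!
# RC Basic: the measure `om` and the reflections `sg` (easy/medium)

The file `Lib/MP_be97b2_co/SphereMeasure.lean` proves the analogous facts for the normalised measure `sphP E = c⁻¹ • om E`
(`c = toSphere univ`, `c ≠ 0`, `c ≠ ⊤` if `E` is nontrivial); copy the proofs or multiply by `c`.
`sg` facts: for `‖w‖ = 1` the map `sg w` is the reflection in the orthogonal complement of `w`.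
`sgE`: build it from `Submodule.reflection (ℝ ∙ w)ᗮ` or by hand (involution, inner products preserved).
`sg_swap`: if `‖x‖ = ‖y‖`, `x ≠ y` and `w = ‖x - y‖⁻¹ • (x - y)` then `sg w x = y`.
-/

set_option autoImplicit false

open MeasureTheory Module
open scoped ENNReal NNReal Pointwise

namespace RC

section pre

variable {E : Type*} [NormedAddCommGroup E] [InnerProductSpace ℝ E]

theorem sg_sg {w : E} (hw : ‖w‖ = 1) (x : E) : sg w (sg w x) = x := by
  have h1 : inner ℝ w w = (1 : ℝ) := by rw [real_inner_self_eq_norm_sq, hw]; norm_num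
  simp only [sg, inner_sub_left, inner_smul_left, h1]
  rw [sub_sub, ← add_smul]
  have : 2 * inner ℝ x w + 2 * (inner ℝ x w - (starRingEnd ℝ) (2 * inner ℝ x w) * 1) = 0 := by
    simp
    ring
  rw [this, zero_smul, sub_zero]

theorem inner_sg_sg {w : E} (hw : ‖w‖ = 1) (x y : E) :
    inner ℝ (sg w x) (sg w y) = inner ℝ x y := by
  have h1 : inner ℝ w w = (1 : ℝ) := by rw [real_inner_self_eq_norm_sq, hw]; norm_num
  have h2 : inner ℝ w y = inner ℝ y w := real_inner_comm _ _
  simp only [sg, inner_sub_left, inner_sub_right, inner_smul_left, inner_smul_right, h1, h2]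
  simp
  ring

theorem inner_sg {w : E} (hw : ‖w‖ = 1) (x y : E) :
    inner ℝ (sg w x) y = inner ℝ x (sg w y) := by
  have h2 : inner ℝ w y = inner ℝ y w := real_inner_comm _ _
  simp only [sg, inner_sub_left, inner_sub_right, inner_smul_left, inner_smul_right, h2]
  simp
  ring

theorem norm_sg {w : E} (hw : ‖w‖ = 1) (x : E) : ‖sg w x‖ = ‖x‖ := by
  have h := inner_sg_sg hw x x
  rw [real_inner_self_eq_norm_sq, real_inner_self_eq_norm_sq] at h
  exact (sq_eq_sq₀ (norm_nonneg _) (norm_nonneg _)).mp h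

/-- the reflection as a linear isometry -/
theorem exists_isometry {w : E} (hw : ‖w‖ = 1) : ∃ L : E ≃ₗᵢ[ℝ] E, ∀ x, L x = sg w x := by
  refine ⟨{ toFun := sg w
            map_add' := ?_
            map_smul' := ?_
            invFun := sg w
            left_inv := fun x => sg_sg hw x
            right_inv := fun x => sg_sg hw x
            norm_map' := fun x => norm_sg hw x }, fun x => rfl⟩
  · intro x y
    simp only [sg, inner_add_left, mul_add, add_smul]
    abel
  · intro c x
    simp only [sg, inner_smul_left, smul_sub, smul_smul]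
    congr 2
    simp
    ring

theorem sg_swap {x y : E} (h : ‖x‖ = ‖y‖) (hxy : x ≠ y) :
    ‖‖x - y‖⁻¹ • (x - y)‖ = 1 ∧ sg (‖x - y‖⁻¹ • (x - y)) x = y := by
  have h0 : ‖x - y‖ ≠ 0 := norm_ne_zero_iff.mpr (sub_ne_zero.mpr hxy)
  refine ⟨?_, ?_⟩
  · rw [norm_smul, norm_inv, norm_norm, inv_mul_cancel₀ h0]
  · unfold sg
    rw [inner_smul_right, smul_smul]
    have h1 : 2 * inner ℝ x (x - y) = ‖x - y‖ ^ 2 := by
      rw [inner_sub_right, real_inner_self_eq_norm_sq]
      have := norm_sub_sq_real x y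
      rw [this, ← h]
      ring
    have h2 : 2 * (‖x - y‖⁻¹ * inner ℝ x (x - y)) * ‖x - y‖⁻¹ = 1 := by
      have : 2 * (‖x - y‖⁻¹ * inner ℝ x (x - y)) * ‖x - y‖⁻¹ =
          (2 * inner ℝ x (x - y)) * (‖x - y‖⁻¹) ^ 2 := by ring
      rw [this, h1, ← mul_pow, mul_inv_cancel₀ h0, one_pow]
    rw [h2, one_smul]
    abel

/-- `τ (sg u y) = sg (τ u) (τ y)` for isometries `τ` -/
theorem isometry_sg (L : E ≃ₗᵢ[ℝ] E) (u y : E) : L (sg u y) = sg (L u) (L y) := by
  simp only [sg, map_sub, map_smul, LinearIsometryEquiv.inner_map_map]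

theorem continuous_sg : Continuous (fun p : E × E => sg p.1 p.2) := by
  unfold sg
  fun_prop

end pre

variable {E : Type*} [NormedAddCommGroup E] [InnerProductSpace ℝ E] [MeasurableSpace E]
  [BorelSpace E] [FiniteDimensional ℝ E]

instance om_finite : IsFiniteMeasure (om E) := by
  unfold om
  infer_instance

private lemma basicaux_apply {A : Set E} (hA : MeasurableSet A) :
    om E A = (volume : Measure E).toSphere (Subtype.val ⁻¹' A) := by
  rw [om, Measure.map_apply measurable_subtype_coe hA]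

private lemma basicaux_eq [Nontrivial E] :
    om E = (volume : Measure E).toSphere Set.univ • Pool.Agent.MP_be97b2_co.sphP E := by
  rw [Pool.Agent.MP_be97b2_co.sphP, smul_smul,
    ENNReal.mul_inv_cancel Pool.Agent.MP_be97b2_co.toSphere_univ_ne_zero
      Pool.Agent.MP_be97b2_co.toSphere_univ_ne_top, one_smul]
  rfl

theorem om_norm : ∀ᵐ x ∂(om E), ‖x‖ = 1 := by
  rw [ae_iff]
  have hm : MeasurableSet {x : E | ¬ ‖x‖ = 1} :=
    (measurableSet_eq_fun measurable_norm measurable_const).compl
  rw [basicaux_apply hm]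
  have : (Subtype.val ⁻¹' {x : E | ¬ ‖x‖ = 1} : Set (Metric.sphere (0:E) 1)) = ∅ := by
    ext x
    simp
  rw [this, measure_empty]

/-- invariance under linear isometries -/
theorem om_isometry (L : E ≃ₗᵢ[ℝ] E) : MeasurePreserving L (om E) (om E) := by
  rcases subsingleton_or_nontrivial E with hE | hE
  · have hL : (L : E → E) = id := by
      funext x
      exact Subsingleton.elim _ _
    rw [hL]
    exact MeasurePreserving.id _
  · have h := Pool.Agent.MP_be97b2_co.sphP_invariant L
    refine ⟨h.measurable, ?_⟩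
    have he := basicaux_eq (E := E)
    rw [he, Measure.map_smul, h.map_eq]

theorem om_sg {w : E} (hw : ‖w‖ = 1) : MeasurePreserving (sg w) (om E) (om E) := by
  obtain ⟨L, hL⟩ := exists_isometry hw
  have : (L : E → E) = sg w := funext hL
  rw [← this]
  exact om_isometry L

theorem lintegral_sg {w : E} (hw : ‖w‖ = 1) (G : E → ℝ≥0∞) :
    ∫⁻ x, G (sg w x) ∂(om E) = ∫⁻ x, G x ∂(om E) := by
  obtain ⟨L, hL⟩ := exists_isometry hw
  have h := (om_isometry L).lintegral_comp_emb L.toHomeomorph.measurableEmbedding G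
  rw [← h]
  refine lintegral_congr fun x => ?_
  rw [hL]

/-- a measurable set which is stable under multiplication by positive reals and has volume zero is null -/
theorem om_cone_null {S : Set E} (hS : MeasurableSet S) (hc : ∀ t : ℝ, 0 < t → ∀ x ∈ S, t • x ∈ S)
    (h0 : (volume : Measure E) S = 0) : om E S = 0 := by
  rw [basicaux_apply hS, Measure.toSphere_apply' _ (measurable_subtype_coe hS)]
  have hsub : Set.Ioo (0:ℝ) 1 •
      (Subtype.val '' (Subtype.val ⁻¹' S : Set (Metric.sphere (0:E) 1))) ⊆ S := by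
    rintro _ ⟨t, ht, _, ⟨x, hx, rfl⟩, rfl⟩
    exact hc t ht.1 _ hx
  have : (volume : Measure E)
      (Set.Ioo (0:ℝ) 1 • (Subtype.val '' (Subtype.val ⁻¹' S : Set (Metric.sphere (0:E) 1)))) = 0 :=
    le_antisymm ((measure_mono hsub).trans h0.le) bot_le
  rw [this, mul_zero]

end RC
end

section

/-!
# RC CVb: polar coordinates (medium)

`n = finrank ℝ E`. `polar`: for measurable `F : E → [0,∞]` (`E` nontrivial)
`∫ F = ∫_{x ∈ om} ∫_{0 < r} r^(n-1) F (r x) dr`: this is `MeasureTheory.Measure.measurePreserving_homeomorphUnitSphereProd` together with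
`volumeIoiPow` (a `withDensity` measure), the null set `{0}`, and `lintegral_map` for `om E = toSphere.map Subtype.val`. See the proof of
`MeasureTheory.Measure.integral_fun_norm_addHaar` (Mathlib `Constructions/HaarToSphere`) for the pattern.
`polar_ball`: apply `polar` to `F y = 1[‖y‖ * h (‖y‖⁻¹ • y) < 1] G (‖y‖⁻¹ • y)` with `h > 0` on the unit sphere: the inner integral is
`G x ∫_{0 < r < 1/h x} r^(n-1) dr = G x (1/h x)^n / n`.
-/

set_option autoImplicit false

open MeasureTheory Module
open scoped ENNReal NNReal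

namespace RC

variable {E : Type*} [NormedAddCommGroup E] [InnerProductSpace ℝ E] [MeasurableSpace E]
  [BorelSpace E] [FiniteDimensional ℝ E]

theorem polar (hn : 1 ≤ finrank ℝ E) (F : E → ℝ≥0∞) (hF : Measurable F) :
    ∫⁻ y, F y = ∫⁻ x, (∫⁻ r in Set.Ioi (0:ℝ), ENNReal.ofReal (r ^ (finrank ℝ E - 1)) * F (r • x)) ∂(om E) := by
  have : Nontrivial E := Module.nontrivial_of_finrank_pos (R := ℝ) (by omega)
  have hmp := (volume : Measure E).measurePreserving_homeomorphUnitSphereProd
  have h1 : ∫⁻ y, F y = ∫⁻ y : ({0}ᶜ : Set E), F y ∂((volume : Measure E).comap (↑)) := by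
    rw [lintegral_subtype_comap (measurableSet_singleton _).compl F, restrict_compl_singleton]
  have h2 : ∫⁻ y : ({0}ᶜ : Set E), F y ∂((volume : Measure E).comap (↑)) =
      ∫⁻ p, F ((homeomorphUnitSphereProd E).symm p)
        ∂((volume : Measure E).toSphere.prod (Measure.volumeIoiPow (finrank ℝ E - 1))) := by
    rw [← hmp.map_eq, (Homeomorph.measurableEmbedding _).lintegral_map]
    simp
  have h3 : ∫⁻ p, F ((homeomorphUnitSphereProd E).symm p)
        ∂((volume : Measure E).toSphere.prod (Measure.volumeIoiPow (finrank ℝ E - 1))) =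
      ∫⁻ x, ∫⁻ r, F ((homeomorphUnitSphereProd E).symm (x, r))
        ∂(Measure.volumeIoiPow (finrank ℝ E - 1)) ∂((volume : Measure E).toSphere) := by
    rw [lintegral_prod]
    refine Measurable.aemeasurable ?_
    refine hF.comp (measurable_subtype_coe.comp ?_)
    exact (homeomorphUnitSphereProd E).symm.measurable
  rw [h1, h2, h3]
  unfold om
  rw [(MeasurableEmbedding.subtype_coe (Metric.isClosed_sphere.measurableSet)).lintegral_map]
  refine lintegral_congr fun x => ?_
  have hm : Measurable fun r : ℝ => F (r • (x : E)) :=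
    hF.comp (measurable_id.smul_const _)
  have h4 : ∀ r : Set.Ioi (0 : ℝ), F ((homeomorphUnitSphereProd E).symm (x, r)) =
      F ((r : ℝ) • (x : E)) := fun r => rfl
  simp only [h4]
  unfold Measure.volumeIoiPow
  have h5 : Measurable fun r : Set.Ioi (0 : ℝ) => F ((r : ℝ) • (x : E)) :=
    hm.comp measurable_subtype_coe
  refine (lintegral_withDensity_eq_lintegral_mul _
    ((measurable_subtype_coe.pow_const _).ennreal_ofReal) h5).trans ?_
  exact lintegral_subtype_comap measurableSet_Ioi
    (fun r : ℝ => ENNReal.ofReal (r ^ (finrank ℝ E - 1)) * F (r • (x : E)))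

private theorem lintegral_pow_Ioo (n : ℕ) (hn : 1 ≤ n) (c : ℝ) (hc : 0 < c) :
    ∫⁻ r in Set.Ioo (0 : ℝ) c, ENNReal.ofReal (r ^ (n - 1)) = ENNReal.ofReal (c ^ n / n) := by
  obtain ⟨m, rfl⟩ : ∃ m, n = m + 1 := ⟨n - 1, by omega⟩
  simp only [Nat.add_sub_cancel]
  rw [Measure.restrict_congr_set Ioo_ae_eq_Ioc,
    ← ofReal_integral_eq_lintegral_ofReal (intervalIntegral.intervalIntegrable_pow _).1,
    ← intervalIntegral.integral_of_le hc.le]
  · simp
  · filter_upwards [ae_restrict_mem measurableSet_Ioc] with y hy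
    exact pow_nonneg hy.1.le _

theorem polar_ball (hn : 1 ≤ finrank ℝ E) (G : E → ℝ≥0∞) (hG : Measurable G) (h : E → ℝ) (hh : Measurable h)
    (hp : ∀ᵐ x ∂(om E), 0 < h x) :
    ∫⁻ y in {y | ‖y‖ * h (‖y‖⁻¹ • y) < 1}, G (‖y‖⁻¹ • y) =
      ENNReal.ofReal (1 / finrank ℝ E) * ∫⁻ x, G x * ENNReal.ofReal ((h x)⁻¹ ^ finrank ℝ E) ∂(om E) := by
  have hm : Measurable fun y : E => ‖y‖⁻¹ • y := measurable_norm.inv.smul measurable_id
  have hS : MeasurableSet {y : E | ‖y‖ * h (‖y‖⁻¹ • y) < 1} :=
    measurableSet_lt (measurable_norm.mul (hh.comp hm)) measurable_const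
  have hI : Measurable ({y : E | ‖y‖ * h (‖y‖⁻¹ • y) < 1}.indicator fun y => G (‖y‖⁻¹ • y)) :=
    (hG.comp hm).indicator hS
  have hJ : Measurable fun x : E => G x * ENNReal.ofReal ((h x)⁻¹ ^ finrank ℝ E) :=
    hG.mul ((hh.inv.pow_const _).ennreal_ofReal)
  rw [← lintegral_indicator hS, polar hn _ hI, ← lintegral_const_mul _ hJ]
  refine lintegral_congr_ae ?_
  filter_upwards [hp, om_norm] with x hx hx1
  have h1 : ∀ r ∈ Set.Ioi (0 : ℝ), ENNReal.ofReal (r ^ (finrank ℝ E - 1)) *
      ({y : E | ‖y‖ * h (‖y‖⁻¹ • y) < 1}.indicator (fun y => G (‖y‖⁻¹ • y)) (r • x)) =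
      (Set.Iio (h x)⁻¹).indicator (fun r => ENNReal.ofReal (r ^ (finrank ℝ E - 1)) * G x) r := by
    intro r hr
    have hr' : (0 : ℝ) < r := hr
    have hnr : ‖r • x‖ = r := by rw [norm_smul, hx1, mul_one, Real.norm_of_nonneg hr'.le]
    have hrx : ‖r • x‖⁻¹ • (r • x) = x := by
      rw [hnr, smul_smul, inv_mul_cancel₀ hr'.ne', one_smul]
    have hmem : (r • x ∈ {y : E | ‖y‖ * h (‖y‖⁻¹ • y) < 1}) ↔ r ∈ Set.Iio (h x)⁻¹ := by
      simp only [Set.mem_ofPred_eq, Set.mem_Iio, hrx]
      rw [hnr, ← lt_div_iff₀ hx, one_div]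
    by_cases hc : r ∈ Set.Iio (h x)⁻¹
    · rw [Set.indicator_of_mem (hmem.2 hc), Set.indicator_of_mem hc]
      simp only [hrx]
    · rw [Set.indicator_of_notMem (fun hh => hc (hmem.1 hh)), Set.indicator_of_notMem hc, mul_zero]
  rw [setLIntegral_congr_fun measurableSet_Ioi h1, setLIntegral_indicator measurableSet_Iio,
    Set.inter_comm, Set.Ioi_inter_Iio, lintegral_mul_const _ (by fun_prop),
    lintegral_pow_Ioo _ hn _ (inv_pos.2 hx)]
  have hn0 : (0 : ℝ) < (finrank ℝ E : ℝ) := by exact_mod_cast hn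
  have h2 : (h x)⁻¹ ^ finrank ℝ E / (finrank ℝ E : ℝ) =
      (1 / (finrank ℝ E : ℝ)) * (h x)⁻¹ ^ finrank ℝ E := by ring
  rw [h2, ENNReal.ofReal_mul (by positivity)]
  ring

end RC
end

section

/-!
# RC Layer: layer cake (easy/medium)

`layer_one`: `{s ∈ Ioi 0 | s.toNNReal < z}` is `Ioo 0 z`, of measure `ofReal z = z`.
`layer`: insert `layer_one` for `f y` and for `g (sg u y)` in `conv f g u = ∫_y f y * g (sg u y)` and exchange the integrals (Tonelli,
`lintegral_lintegral_swap`; everything is jointly measurable: `{(s, y) | s.toNNReal < f y}` and `(u,y) ↦ sg u y` is continuous, `continuous_sg`); the inner integral of the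
product of the two indicators is `convS`.
`convS_congr`: for unit `u` `sg u` preserves `om`, so `{y | sg u y ∈ B}` and `{y | sg u y ∈ B'}` agree a.e.
`conv_symm`: for unit `u` substitute `y = sg u z` (`lintegral_sg`, `sg_sg`).
-/

set_option autoImplicit false

open MeasureTheory Module
open scoped ENNReal NNReal

namespace RC

variable {E : Type*} [NormedAddCommGroup E] [InnerProductSpace ℝ E] [MeasurableSpace E]
  [BorelSpace E] [FiniteDimensional ℝ E]

private lemma layerAux_one (z : ℝ≥0) :
    ∫⁻ s in Set.Ioi (0:ℝ), {s : ℝ | s.toNNReal < z}.indicator (1 : ℝ → ℝ≥0∞) s = z := by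
  have hm : MeasurableSet {s : ℝ | s.toNNReal < z} :=
    measurableSet_lt measurable_real_toNNReal measurable_const
  rw [lintegral_indicator_one hm, Measure.restrict_apply hm]
  have : {s : ℝ | s.toNNReal < z} ∩ Set.Ioi 0 = Set.Ioo 0 (z : ℝ) := by
    ext s
    simp only [Set.mem_inter_iff, Set.mem_setOf_eq, Set.mem_Ioi, Set.mem_Ioo]
    constructor
    · rintro ⟨h1, h2⟩
      exact ⟨h2, (Real.toNNReal_lt_iff_lt_coe h2.le).mp h1⟩
    · rintro ⟨h1, h2⟩
      exact ⟨(Real.toNNReal_lt_iff_lt_coe h1.le).mpr h2, h1⟩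
  rw [this, Real.volume_Ioo, sub_zero, ENNReal.ofReal_coe_nnreal]

private lemma layerAux_convS {A B : Set E} (hA : MeasurableSet A) (hB : MeasurableSet B) (u : E) :
    convS A B u = ∫⁻ y, A.indicator (1 : E → ℝ≥0∞) y * B.indicator (1 : E → ℝ≥0∞) (sg u y) ∂(om E) := by
  have hs : Measurable (sg u) := (continuous_sg.comp (Continuous.prodMk_right u)).measurable
  have hm : MeasurableSet (A ∩ {y | sg u y ∈ B}) := hA.inter (hs hB)
  unfold convS
  rw [← lintegral_indicator_one hm]
  refine lintegral_congr fun y => ?_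
  by_cases h1 : y ∈ A <;> by_cases h2 : sg u y ∈ B <;> simp [Set.indicator, h1, h2]

open Classical in
theorem layer_one (z : ℝ≥0) :
    ∫⁻ s in Set.Ioi (0:ℝ), (if s.toNNReal < z then (1 : ℝ≥0∞) else 0) = z := by
  rw [← layerAux_one z]
  refine lintegral_congr fun s => ?_
  by_cases h : s.toNNReal < z <;> simp [Set.indicator, h]

private lemma layerAux_meas1 (f : E → ℝ≥0) (hf : Measurable f) :
    Measurable (fun p : ℝ × E => {s : ℝ | s.toNNReal < f p.2}.indicator (1 : ℝ → ℝ≥0∞) p.1) := by
  have hm : MeasurableSet {p : ℝ × E | p.1.toNNReal < f p.2} :=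
    measurableSet_lt (measurable_real_toNNReal.comp measurable_fst) (hf.comp measurable_snd)
  have h := (measurable_one (α := ℝ≥0∞) (β := ℝ × E)).indicator hm
  have e : (fun p : ℝ × E => {s : ℝ | s.toNNReal < f p.2}.indicator (1 : ℝ → ℝ≥0∞) p.1) =
      {p : ℝ × E | p.1.toNNReal < f p.2}.indicator (1 : ℝ × E → ℝ≥0∞) := by
    funext p
    by_cases hp : p.1.toNNReal < f p.2 <;> simp [Set.indicator, hp]
  rw [e]
  exact h

theorem layer (f g : E → ℝ≥0) (hf : Measurable f) (hg : Measurable g) {U : Set E} (hU : MeasurableSet U) :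
    ∫⁻ u in U, conv f g u ∂(om E) =
      ∫⁻ s in Set.Ioi (0:ℝ), ∫⁻ t in Set.Ioi (0:ℝ), ∫⁻ u in U,
        convS {y | s.toNNReal < f y} {y | t.toNNReal < g y} u ∂(om E) := by
  set φ : ℝ → E → ℝ≥0∞ := fun s y => {s : ℝ | s.toNNReal < f y}.indicator (1 : ℝ → ℝ≥0∞) s with hφd
  set ψ : ℝ → E → ℝ≥0∞ := fun s y => {s : ℝ | s.toNNReal < g y}.indicator (1 : ℝ → ℝ≥0∞) s with hψd
  have hφ : Measurable (fun p : ℝ × E => φ p.1 p.2) := layerAux_meas1 f hf
  have hψ : Measurable (fun p : ℝ × E => ψ p.1 p.2) := layerAux_meas1 g hg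
  have hsg : Measurable (fun p : E × E => sg p.1 p.2) := continuous_sg.measurable
  -- the value of `convS`
  have hS : ∀ (s t : ℝ) (u : E), convS {y | s.toNNReal < f y} {y | t.toNNReal < g y} u =
      ∫⁻ y, φ s y * ψ t (sg u y) ∂(om E) := by
    intro s t u
    rw [layerAux_convS (measurableSet_lt measurable_const hf) (measurableSet_lt measurable_const hg)]
    refine lintegral_congr fun y => ?_
    congr 1
  -- the full integrand
  have hG : Measurable (fun p : (ℝ × ℝ × E) × E => φ p.1.1 p.2 * ψ p.1.2.1 (sg p.1.2.2 p.2)) := by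
    refine Measurable.mul ?_ ?_
    · exact hφ.comp ((measurable_fst.comp measurable_fst).prodMk measurable_snd)
    · refine hψ.comp (((measurable_fst.comp measurable_snd).comp measurable_fst).prodMk ?_)
      exact hsg.comp (((measurable_snd.comp measurable_snd).comp measurable_fst).prodMk measurable_snd)
  have hH : Measurable (fun q : ℝ × ℝ × E => ∫⁻ y, φ q.1 y * ψ q.2.1 (sg q.2.2 y) ∂(om E)) :=
    hG.lintegral_prod_right'
  have h1 : ∀ u : E, conv f g u = ∫⁻ s in Set.Ioi (0:ℝ), ∫⁻ t in Set.Ioi (0:ℝ),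
      ∫⁻ y, φ s y * ψ t (sg u y) ∂(om E) := by
    intro u
    have hφs : ∀ y, Measurable (fun s => φ s y) := fun y => hφ.comp (measurable_id.prodMk measurable_const)
    have hψs : ∀ y, Measurable (fun s => ψ s y) := fun y => hψ.comp (measurable_id.prodMk measurable_const)
    have a1 : conv f g u = ∫⁻ y, (∫⁻ s in Set.Ioi (0:ℝ), (∫⁻ t in Set.Ioi (0:ℝ),
        φ s y * ψ t (sg u y))) ∂(om E) := by
      unfold conv
      refine lintegral_congr fun y => ?_
      rw [← layerAux_one (f y), ← layerAux_one (g (sg u y))]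
      rw [← lintegral_mul_const _ (hφs y)]
      refine lintegral_congr fun s => ?_
      rw [← lintegral_const_mul _ (hψs (sg u y))]
    have hK : Measurable (fun p : (ℝ × E) × ℝ => φ p.1.1 p.1.2 * ψ p.2 (sg u p.1.2)) := by
      refine Measurable.mul ?_ ?_
      · exact hφ.comp measurable_fst
      · refine hψ.comp (measurable_snd.prodMk ?_)
        exact hsg.comp (measurable_const.prodMk (measurable_snd.comp measurable_fst))
    have hK1 : Measurable (fun p : ℝ × E => ∫⁻ t in Set.Ioi (0:ℝ), φ p.1 p.2 * ψ t (sg u p.2)) :=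
      hK.lintegral_prod_right'
    have a2 : ∫⁻ y, (∫⁻ s in Set.Ioi (0:ℝ), (∫⁻ t in Set.Ioi (0:ℝ), φ s y * ψ t (sg u y))) ∂(om E) =
        ∫⁻ s in Set.Ioi (0:ℝ), (∫⁻ y, (∫⁻ t in Set.Ioi (0:ℝ), φ s y * ψ t (sg u y)) ∂(om E)) := by
      refine lintegral_lintegral_swap ?_
      exact (hK1.comp measurable_swap).aemeasurable
    rw [a1, a2]
    refine lintegral_congr fun s => ?_
    refine lintegral_lintegral_swap ?_
    refine Measurable.aemeasurable ?_
    exact hK.comp ((measurable_const.prodMk measurable_fst).prodMk measurable_snd)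
  have h2 : ∫⁻ u in U, conv f g u ∂(om E) = ∫⁻ u in U, (∫⁻ s in Set.Ioi (0:ℝ), (∫⁻ t in Set.Ioi (0:ℝ),
      (∫⁻ y, φ s y * ψ t (sg u y) ∂(om E)))) ∂(om E) := lintegral_congr fun u => h1 u
  have hH1 : Measurable (fun p : E × ℝ => ∫⁻ t in Set.Ioi (0:ℝ),
      ∫⁻ y, φ p.2 y * ψ t (sg p.1 y) ∂(om E)) := by
    have : Measurable (fun q : (E × ℝ) × ℝ => ∫⁻ y, φ q.1.2 y * ψ q.2 (sg q.1.1 y) ∂(om E)) :=
      hH.comp ((measurable_snd.comp measurable_fst).prodMk
        (measurable_snd.prodMk (measurable_fst.comp measurable_fst)))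
    exact this.lintegral_prod_right'
  rw [h2, lintegral_lintegral_swap hH1.aemeasurable]
  refine lintegral_congr fun s => ?_
  rw [lintegral_lintegral_swap]
  · refine lintegral_congr fun t => ?_
    refine lintegral_congr fun u => ?_
    exact (hS s t u).symm
  · refine Measurable.aemeasurable ?_
    exact hH.comp (measurable_const.prodMk (measurable_snd.prodMk measurable_fst))

theorem convS_congr {A A' B B' : Set E} (hA : A =ᵐ[om E] A') (hB : B =ᵐ[om E] B') {u : E} (hu : ‖u‖ = 1) :
    convS A B u = convS A' B' u := by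
  unfold convS
  refine measure_congr (hA.inter ?_)
  exact (om_sg hu).quasiMeasurePreserving.preimage_ae_eq hB

theorem conv_symm (f g : E → ℝ≥0) {u : E} (hu : ‖u‖ = 1) : conv f g u = conv g f u := by
  unfold conv
  rw [← lintegral_sg hu (fun y => (g y : ℝ≥0∞) * (f (sg u y) : ℝ≥0∞))]
  refine lintegral_congr fun y => ?_
  rw [sg_sg hu, mul_comm]

theorem measurable_conv (f g : E → ℝ≥0) (hf : Measurable f) (hg : Measurable g) : Measurable (conv f g) := by
  have hsg : Measurable (fun p : E × E => sg p.1 p.2) := continuous_sg.measurable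
  have : Measurable (fun p : E × E => (f p.2 : ℝ≥0∞) * (g (sg p.1 p.2) : ℝ≥0∞)) :=
    ((hf.comp measurable_snd).coe_nnreal_ennreal).mul ((hg.comp hsg).coe_nnreal_ennreal)
  exact this.lintegral_prod_right'

end RC
end

section

/-!
# RC Level: level sets are null, bands and caps of given measure (medium)

`level_null`: `‖a‖ = 1`, dimension at least 2. WLOG `c ≥ 0` (replace `a` by `-a`). The set is contained, up to the non-unit vectors, in the cone
`S = {y | ⟪y,a⟫ = c ‖y‖}`; `om_cone_null`, so it suffices that `volume S = 0`. The set `K = {y | c ‖y‖ ≤ ⟪y,a⟫}` is convex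
and closed. If `c < 1`, every `y ∈ S` is in the frontier of `K`, because for `ε > 0` the point `y - ε a` is not in `K`:
`⟪y - εa, a⟫ = c‖y‖ - ε < c(‖y‖ - ε) ≤ c ‖y - ε a‖`. Now `Convex.addHaar_frontier`. If `c = 1` then `S` is contained in the line spanned by `a`
(equality in Cauchy-Schwarz), a proper submodule (`Measure.addHaar_submodule`). If `c > 1`, `S = {0}` is contained in it as well.
`exists_band`: `m(b) = om (band N b)` is monotone, `m(0) = 0`, `m(2) = om univ` (`|⟪x,N⟫| ≤ 1` a.e.). Let `b = sSup {b ∈ [0,2] | m(b) ≤ t}`.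
`band N b` is the increasing union of `band N b'`, `b' < b`, so `m(b) ≤ t`; for `b' > b`: `m(b') > t`, and the `band N b'` decrease to
`{|⟪x,N⟫| ≤ b}`, so `om {|⟪x,N⟫| ≤ b} ≥ t`, and this set is `band N b` up to a null set by `level_null`.
`cap_ae`: two nested sets of the same finite measure are equal almost everywhere.
`om_cap`: use `exists_isometry` and `sg_swap` (or `a = N`): the isometry `L` with `L a = N` maps `cap a r` to `cap N r`.
`upset_ae_cap`: `{s | t < φ s}` is an upper set of `ℝ`, so it is empty, `univ`, `Ioi c` or `Ici c`; the cap `cap N c` with this `c` (or `c = 2`, `c = -2`).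
-/

set_option autoImplicit false

open MeasureTheory Module
open scoped ENNReal NNReal

namespace RC

variable {E : Type*} [NormedAddCommGroup E] [InnerProductSpace ℝ E] [MeasurableSpace E]
  [BorelSpace E] [FiniteDimensional ℝ E]

theorem measurableSet_cap (a : E) (r : ℝ) : MeasurableSet (cap a r) := by
  have h : IsOpen (cap a r) := by
    unfold cap
    exact isOpen_lt continuous_const (by fun_prop)
  exact h.measurableSet

theorem measurableSet_band (a : E) (b : ℝ) : MeasurableSet (band a b) := by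
  have h : IsOpen (band a b) := by
    unfold band
    exact isOpen_lt (by fun_prop) continuous_const
  exact h.measurableSet

private theorem cone_vol_nonneg (hn : 2 ≤ finrank ℝ E) {a : E} (ha : ‖a‖ = 1) {c : ℝ} (hc : 0 ≤ c) :
    (volume : Measure E) {y | inner ℝ y a = c * ‖y‖} = 0 := by
  have haa : inner ℝ a a = (1 : ℝ) := by rw [real_inner_self_eq_norm_sq, ha, one_pow]
  rcases lt_or_ge c 1 with hc1 | hc1
  · set K : Set E := {y | c * ‖y‖ ≤ inner ℝ y a} with hK
    have hconv : Convex ℝ K := by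
      intro x hx y hy s t hs ht hst
      have hx' : c * ‖x‖ ≤ inner ℝ x a := hx
      have hy' : c * ‖y‖ ≤ inner ℝ y a := hy
      change c * ‖s • x + t • y‖ ≤ inner ℝ (s • x + t • y) a
      have h1 : ‖s • x + t • y‖ ≤ s * ‖x‖ + t * ‖y‖ := by
        refine (norm_add_le _ _).trans (le_of_eq ?_)
        rw [norm_smul, norm_smul, Real.norm_of_nonneg hs, Real.norm_of_nonneg ht]
      rw [inner_add_left, real_inner_smul_left, real_inner_smul_left]
      have h2 : c * ‖s • x + t • y‖ ≤ c * (s * ‖x‖ + t * ‖y‖) := mul_le_mul_of_nonneg_left h1 hc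
      have h3 := mul_le_mul_of_nonneg_left hx' hs
      have h4 := mul_le_mul_of_nonneg_left hy' ht
      nlinarith
    have hclosed : IsClosed K := isClosed_le (by fun_prop) (by fun_prop)
    have hsub : {y : E | inner ℝ y a = c * ‖y‖} ⊆ frontier K := by
      intro y hy
      have hy' : inner ℝ y a = c * ‖y‖ := hy
      rw [hclosed.frontier_eq]
      refine ⟨le_of_eq hy'.symm, fun hint => ?_⟩
      rw [mem_interior_iff_mem_nhds, Metric.mem_nhds_iff] at hint
      obtain ⟨δ, hδ, hball⟩ := hint
      have hmem : y - (δ / 2) • a ∈ Metric.ball y δ := by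
        rw [Metric.mem_ball, dist_eq_norm]
        have : y - (δ / 2) • a - y = -((δ / 2) • a) := by abel
        rw [this, norm_neg, norm_smul, ha, mul_one, Real.norm_of_nonneg (by positivity)]
        linarith
      have hK2 : c * ‖y - (δ / 2) • a‖ ≤ inner ℝ (y - (δ / 2) • a) a := hball hmem
      rw [inner_sub_left, real_inner_smul_left, haa, hy'] at hK2
      have h1 : ‖y‖ - δ / 2 ≤ ‖y - (δ / 2) • a‖ := by
        have h2 := norm_sub_norm_le y ((δ / 2) • a)
        rw [norm_smul, ha, mul_one, Real.norm_of_nonneg (by positivity)] at h2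
        exact h2
      have h2 := mul_le_mul_of_nonneg_left h1 hc
      nlinarith
    exact measure_mono_null hsub (hconv.addHaar_frontier volume)
  · have hsub : {y : E | inner ℝ y a = c * ‖y‖} ⊆ ((ℝ ∙ a : Submodule ℝ E) : Set E) := by
      intro y hy
      have hy' : inner ℝ y a = c * ‖y‖ := hy
      have h1 : inner ℝ y a ≤ ‖y‖ * ‖a‖ := real_inner_le_norm y a
      have h2 : inner ℝ y a = ‖y‖ * ‖a‖ := by
        refine le_antisymm h1 ?_
        rw [hy', ha, mul_one]
        exact le_mul_of_one_le_left (norm_nonneg _) hc1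
      rw [inner_eq_norm_mul_iff_real, ha, one_smul] at h2
      rw [h2]
      exact Submodule.smul_mem _ _ (Submodule.mem_span_singleton_self a)
    refine measure_mono_null hsub (Measure.addHaar_submodule volume _ ?_)
    intro htop
    have h1 : finrank ℝ (ℝ ∙ a : Submodule ℝ E) ≤ 1 := by
      have := finrank_span_le_card (R := ℝ) ({a} : Set E)
      simpa using this
    rw [htop, finrank_top] at h1
    omega

private theorem cone_vol (hn : 2 ≤ finrank ℝ E) {a : E} (ha : ‖a‖ = 1) (c : ℝ) :
    (volume : Measure E) {y | inner ℝ y a = c * ‖y‖} = 0 := by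
  rcases le_total 0 c with hc | hc
  · exact cone_vol_nonneg hn ha hc
  · have h := cone_vol_nonneg hn (a := -a) (by rwa [norm_neg]) (c := -c) (by linarith)
    have h2 : {y : E | inner ℝ y a = c * ‖y‖} = {y | inner ℝ y (-a) = -c * ‖y‖} := by
      ext y
      simp only [Set.mem_setOf_eq, inner_neg_right]
      constructor
      · intro h3
        rw [h3]
        ring
      · intro h3
        linarith
    rw [h2]
    exact h

theorem level_null (hn : 2 ≤ finrank ℝ E) {a : E} (ha : ‖a‖ = 1) (c : ℝ) :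
    om E {x | inner ℝ x a = c} = 0 := by
  have h1 : om E {y | inner ℝ y a = c * ‖y‖} = 0 := by
    refine om_cone_null ?_ ?_ (cone_vol hn ha c)
    · have h : IsClosed {y : E | inner ℝ y a = c * ‖y‖} := isClosed_eq (by fun_prop) (by fun_prop)
      exact h.measurableSet
    · intro t ht x hx
      have hx' : inner ℝ x a = c * ‖x‖ := hx
      change inner ℝ (t • x) a = c * ‖t • x‖
      rw [real_inner_smul_left, norm_smul, Real.norm_of_nonneg ht.le, hx']
      ring
  have h2 := om_norm (E := E)
  rw [ae_iff] at h2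
  refine measure_mono_null ?_ (measure_union_null h1 h2)
  intro x hx
  have hx' : inner ℝ x a = c := hx
  by_cases hx1 : ‖x‖ = 1
  · left
    change inner ℝ x a = c * ‖x‖
    rw [hx1, mul_one, hx']
  · right
    exact hx1

theorem exists_band (hn : 2 ≤ finrank ℝ E) {N : E} (hN : ‖N‖ = 1) (t : ℝ≥0∞) (ht : t ≤ om E Set.univ) :
    ∃ b : ℝ, om E (band N b) = t := by
  have hcont : Continuous (fun b : ℝ => (om E).real (band N b)) := by
    rw [continuous_iff_continuousAt]
    intro b₀
    have h1 : (fun b : ℝ => (om E).real (band N b)) =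
        fun b : ℝ => ∫ x, (band N b).indicator (fun _ => (1 : ℝ)) x ∂(om E) := by
      funext b
      rw [integral_indicator (measurableSet_band N b), setIntegral_const, smul_eq_mul, mul_one]
    rw [h1]
    refine continuousAt_of_dominated (bound := fun _ => (1 : ℝ)) ?_ ?_ (integrable_const _) ?_
    · filter_upwards with b
      exact (measurable_const.indicator (measurableSet_band N b)).aestronglyMeasurable
    · filter_upwards with b
      filter_upwards with x
      refine (norm_indicator_le_norm_self _ _).trans ?_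
      simp
    · have h2 : ∀ᵐ x ∂(om E), |inner ℝ x N| ≠ b₀ := by
        have h3 := level_null hn hN b₀
        have h4 := level_null hn hN (-b₀)
        rw [ae_iff]
        refine measure_mono_null ?_ (measure_union_null h3 h4)
        intro x hx
        have hx' : |inner ℝ x N| = b₀ := not_not.1 hx
        rcases abs_cases (inner ℝ x N : ℝ) with ⟨h5, _⟩ | ⟨h5, _⟩
        · left
          change inner ℝ x N = b₀
          linarith
        · right
          change inner ℝ x N = -b₀
          linarith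
      filter_upwards [h2] with x hx
      rcases lt_or_gt_of_ne hx with h | h
      · have h5 : (fun b : ℝ => (band N b).indicator (fun _ => (1 : ℝ)) x) =ᶠ[nhds b₀] fun _ => 1 := by
          filter_upwards [lt_mem_nhds h] with b hb
          exact Set.indicator_of_mem (show x ∈ band N b from hb) _
        exact (continuousAt_const).congr h5.symm
      · have h5 : (fun b : ℝ => (band N b).indicator (fun _ => (1 : ℝ)) x) =ᶠ[nhds b₀] fun _ => 0 := by
          filter_upwards [gt_mem_nhds h] with b hb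
          refine Set.indicator_of_notMem (fun hx2 => ?_) _
          have h6 : |inner ℝ x N| < b := hx2
          linarith
        exact (continuousAt_const).congr h5.symm
  have h0 : (om E).real (band N 0) = 0 := by
    have : band N 0 = (∅ : Set E) := by
      ext x
      simp only [band, Set.mem_setOf_eq, Set.mem_empty_iff_false, iff_false, not_lt]
      exact abs_nonneg _
    rw [this]
    simp
  have h2 : om E (band N 2) = om E Set.univ := by
    refine measure_congr ?_
    rw [Filter.eventuallyEq_set]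
    filter_upwards [om_norm (E := E)] with x hx
    simp only [Set.mem_univ, iff_true]
    have h3 := abs_real_inner_le_norm x N
    rw [hx, hN, mul_one] at h3
    change |inner ℝ x N| < 2
    linarith
  have htop : om E Set.univ ≠ ⊤ := measure_ne_top _ _
  have htt : t ≠ ⊤ := ne_top_of_le_ne_top htop ht
  have hiv := intermediate_value_Icc (show (0 : ℝ) ≤ 2 by norm_num) hcont.continuousOn
  have hmem : t.toReal ∈ Set.Icc ((om E).real (band N 0)) ((om E).real (band N 2)) := by
    rw [h0]
    refine ⟨ENNReal.toReal_nonneg, ?_⟩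
    rw [measureReal_def, h2]
    exact ENNReal.toReal_mono htop ht
  obtain ⟨b, _, hb⟩ := hiv hmem
  refine ⟨b, ?_⟩
  have hb' : (om E (band N b)).toReal = t.toReal := hb
  exact (ENNReal.toReal_eq_toReal_iff' (measure_ne_top _ _) htt).1 hb'

theorem om_cap {a N : E} (ha : ‖a‖ = 1) (hN : ‖N‖ = 1) (r : ℝ) : om E (cap a r) = om E (cap N r) := by
  by_cases haN : a = N
  · rw [haN]
  · obtain ⟨hw, hs⟩ := sg_swap (x := a) (y := N) (by rw [ha, hN]) haN
    set w := ‖a - N‖⁻¹ • (a - N) with hwdef
    have h1 : cap a r = sg w ⁻¹' (cap N r) := by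
      ext x
      simp only [cap, Set.mem_preimage, Set.mem_setOf_eq]
      rw [inner_sg hw, ← hs, sg_sg hw]
    rw [h1]
    exact (om_sg hw).measure_preimage (measurableSet_cap N r).nullMeasurableSet

theorem cap_ae (N : E) {r r' : ℝ} (h : om E (cap N r) = om E (cap N r')) :
    cap N r =ᵐ[om E] cap N r' := by
  rcases le_total r r' with hr | hr
  · have hsub : cap N r' ⊆ cap N r := fun x hx => lt_of_le_of_lt hr hx
    exact (ae_eq_of_subset_of_measure_ge hsub h.le (measurableSet_cap N r').nullMeasurableSet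
      (measure_ne_top _ _)).symm
  · have hsub : cap N r ⊆ cap N r' := fun x hx => lt_of_le_of_lt hr hx
    exact ae_eq_of_subset_of_measure_ge hsub h.ge (measurableSet_cap N r).nullMeasurableSet
      (measure_ne_top _ _)

theorem upset_ae_cap_enn (hn : 2 ≤ finrank ℝ E) {N : E} (hN : ‖N‖ = 1) (φ : ℝ → ℝ≥0) (hφ : Monotone φ) (fs : E → ℝ≥0)
    (hfs : ∀ x, ‖x‖ = 1 → fs x = φ (inner ℝ x N)) (t : ℝ≥0∞) :
    ∃ c : ℝ, {x | t < fs x} =ᵐ[om E] cap N c := by
  set U : Set ℝ := {s | t < (φ s : ℝ≥0∞)} with hU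
  have hup : ∀ s s' : ℝ, s ≤ s' → s ∈ U → s' ∈ U := by
    intro s s' hs h
    have h1 : t < (φ s : ℝ≥0∞) := h
    have h2 : (φ s : ℝ≥0∞) ≤ (φ s' : ℝ≥0∞) := by exact_mod_cast hφ hs
    exact lt_of_lt_of_le h1 h2
  have hin : ∀ x : E, ‖x‖ = 1 → |inner ℝ x N| ≤ 1 := by
    intro x hx
    have h3 := abs_real_inner_le_norm x N
    rwa [hx, hN, mul_one] at h3
  by_cases hne : U.Nonempty
  · by_cases hbd : BddBelow U
    · refine ⟨sInf U, ?_⟩
      have hlev : ∀ᵐ x ∂(om E), inner ℝ x N ≠ sInf U := by
        rw [ae_iff]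
        refine measure_mono_null ?_ (level_null hn hN (sInf U))
        intro x hx
        exact not_not.1 hx
      rw [Filter.eventuallyEq_set]
      filter_upwards [om_norm (E := E), hlev] with x hx hx2
      change (t < (fs x : ℝ≥0∞)) ↔ (sInf U < inner ℝ x N)
      rw [hfs x hx]
      constructor
      · intro h
        exact lt_of_le_of_ne (csInf_le hbd h) (Ne.symm hx2)
      · intro h
        obtain ⟨s, hs, hs2⟩ := exists_lt_of_csInf_lt hne h
        exact hup s _ hs2.le hs
    · refine ⟨-2, ?_⟩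
      rw [Filter.eventuallyEq_set]
      filter_upwards [om_norm (E := E)] with x hx
      change (t < (fs x : ℝ≥0∞)) ↔ (-2 < inner ℝ x N)
      rw [hfs x hx]
      have h1 := hin x hx
      rw [abs_le] at h1
      refine iff_of_true ?_ (by linarith)
      rw [not_bddBelow_iff] at hbd
      obtain ⟨s, hs, hs2⟩ := hbd (inner ℝ x N)
      exact hup s _ hs2.le hs
  · refine ⟨2, ?_⟩
    rw [Filter.eventuallyEq_set]
    filter_upwards [om_norm (E := E)] with x hx
    change (t < (fs x : ℝ≥0∞)) ↔ (2 < inner ℝ x N)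
    rw [hfs x hx]
    have h1 := hin x hx
    rw [abs_le] at h1
    refine iff_of_false (fun h => hne ⟨_, h⟩) (by linarith)

theorem upset_ae_cap (hn : 2 ≤ finrank ℝ E) {N : E} (hN : ‖N‖ = 1) (φ : ℝ → ℝ≥0) (hφ : Monotone φ) (fs : E → ℝ≥0)
    (hfs : ∀ x, ‖x‖ = 1 → fs x = φ (inner ℝ x N)) (t : ℝ≥0) :
    ∃ c : ℝ, {x | t < fs x} =ᵐ[om E] cap N c := by
  have h := upset_ae_cap_enn hn hN φ hφ fs hfs (t : ℝ≥0∞)
  simpa only [ENNReal.coe_lt_coe] using h

end RC
end
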