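import Mathlib
import Pool.Agent.Lib.MP_91315a_an.Level

section

section

/-!
# RC CVa: the change of variables `z = ‖y‖ a - y` (medium/LONG)

`‖a‖ = 1`. The map `Ξ y = ‖y‖ • a - y` is injective on `S = {y | ⟪y,a⟫ < ‖y‖}` (then `y ≠ 0`) with image `{z | 0 < ⟪z,a⟫}`:
`⟪Ξ y, a⟫ = ‖y‖ - ⟪y,a⟫`; if `z = Ξ y` then `‖z‖² = 2 ‖y‖ (‖y‖ - ⟪y,a⟫) = 2 ‖y‖ ⟪z,a⟫`, so `‖y‖ = ‖z‖² / (2 ⟪z,a⟫)` and `y = ‖y‖ a - z`
are determined by `z`; conversely for `0 < ⟪z,a⟫` the point `y = t a - z` with `t = ‖z‖²/(2⟪z,a⟫) > 0` has `‖y‖² = t² - 2t⟪z,a⟫ + ‖z‖² = t²`.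
The derivative at `y ≠ 0` is `v ↦ (⟪y,v⟫/‖y‖) a - v`, its determinant has absolute value `1 - ⟪y,a⟫/‖y‖`
(`det (1 - u ⊗ v) = 1 - ⟪u,v⟫`; e.g. `LinearMap.det` of `id` minus a rank one map: `Matrix.det_one_add_mul_comm`, `LinearMap.det_one_add_smulRight`-type lemma,
search Mathlib for transvection / `det_one_sub`; `|det (-M)| = |det M|`). Then `lintegral_image_eq_lintegral_abs_det_fderiv_mul`.
-/

set_option autoImplicit false

open MeasureTheory Module
open scoped ENNReal NNReal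

namespace RC

variable {E : Type*} [NormedAddCommGroup E] [InnerProductSpace ℝ E] [MeasurableSpace E]
  [BorelSpace E] [FiniteDimensional ℝ E]

theorem abs_det_rank_one (a b : E) (M : E →L[ℝ] E) (hM : ∀ v, M v = (inner ℝ b v : ℝ) • a - v) :
    |M.det| = |1 - inner ℝ b a| := by
  have h1 : (M : E →ₗ[ℝ] E) = (-1 : ℝ) • LinearMap.transvection
      ((-(innerSL ℝ b : E →L[ℝ] ℝ) : E →L[ℝ] ℝ) : E →ₗ[ℝ] ℝ) a := by
    ext v
    simp only [ContinuousLinearMap.coe_coe, LinearMap.smul_apply, LinearMap.transvection.apply,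
      _root_.neg_apply, innerSL_apply_apply]
    rw [hM]
    module
  have h2 : M.det = LinearMap.det (M : E →ₗ[ℝ] E) := rfl
  rw [h2, h1, LinearMap.det_smul, LinearMap.transvection.det, abs_mul, abs_pow, abs_neg, abs_one,
    one_pow, one_mul]
  simp only [ContinuousLinearMap.coe_coe, _root_.neg_apply, innerSL_apply_apply]
  rw [sub_eq_add_neg]

theorem Xi_hasFDerivAt (a : E) {y : E} (hy : y ≠ 0) :
    ∃ M : E →L[ℝ] E, HasFDerivAt (fun y : E => ‖y‖ • a - y) M y ∧
      ∀ v, M v = (inner ℝ (‖y‖⁻¹ • y) v : ℝ) • a - v := by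
  have hn : ‖y‖ ≠ 0 := norm_ne_zero_iff.2 hy
  have h1 : HasFDerivAt (fun y : E => ‖y‖ ^ 2) (2 • (innerSL ℝ y)) y :=
    (hasStrictFDerivAt_norm_sq y).hasFDerivAt
  have h2 : HasFDerivAt (fun y : E => Real.sqrt (‖y‖ ^ 2))
      ((1 / (2 * Real.sqrt (‖y‖ ^ 2))) • (2 • (innerSL ℝ y))) y :=
    h1.sqrt (by positivity)
  have h3 : (fun y : E => Real.sqrt (‖y‖ ^ 2)) = fun y : E => ‖y‖ := by
    funext x
    exact Real.sqrt_sq (norm_nonneg x)
  rw [h3] at h2
  have h4 : Real.sqrt (‖y‖ ^ 2) = ‖y‖ := Real.sqrt_sq (norm_nonneg y)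
  rw [h4] at h2
  refine ⟨_, (h2.smul_const a).sub (hasFDerivAt_id y), ?_⟩
  intro v
  simp only [_root_.sub_apply, ContinuousLinearMap.smulRight_apply,
    _root_.smul_apply, innerSL_apply_apply, ContinuousLinearMap.id_apply, real_inner_smul_left,
    nsmul_eq_mul, smul_eq_mul]
  congr 2
  field_simp
  push_cast
  ring

private theorem Xi_inner {a : E} (ha : ‖a‖ = 1) (y : E) :
    inner ℝ (‖y‖ • a - y) a = ‖y‖ - inner ℝ y a := by
  rw [inner_sub_left, real_inner_smul_left, real_inner_self_eq_norm_sq, ha]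
  ring

private theorem Xi_normsq {a : E} (ha : ‖a‖ = 1) (y : E) :
    ‖‖y‖ • a - y‖ ^ 2 = 2 * ‖y‖ * (‖y‖ - inner ℝ y a) := by
  rw [norm_sub_sq_real, norm_smul, real_inner_smul_left, ha, Real.norm_eq_abs, abs_norm,
    real_inner_comm]
  ring

theorem Xi_injOn {a : E} (ha : ‖a‖ = 1) :
    Set.InjOn (fun y : E => ‖y‖ • a - y) {y | inner ℝ y a < ‖y‖} := by
  intro y hy y' hy' h
  simp only [Set.mem_ofPred_eq] at hy hy'
  have h : ‖y‖ • a - y = ‖y'‖ • a - y' := h
  have h1 := Xi_inner ha y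
  have h2 := Xi_inner ha y'
  rw [h, h2] at h1
  have h3 := Xi_normsq ha y
  have h4 := Xi_normsq ha y'
  rw [h, h4, ← h1] at h3
  have hpos : 0 < ‖y'‖ - inner ℝ y' a := by linarith
  have h5 : ‖y'‖ = ‖y‖ := by
    have := mul_right_cancel₀ hpos.ne' h3
    linarith
  rw [h5] at h
  have := sub_right_injective h
  exact this

theorem Xi_image {a : E} (ha : ‖a‖ = 1) :
    (fun y : E => ‖y‖ • a - y) '' {y | inner ℝ y a < ‖y‖} = {z | 0 < inner ℝ z a} := by
  ext z
  simp only [Set.mem_image, Set.mem_ofPred_eq]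
  constructor
  · rintro ⟨y, hy, rfl⟩
    rw [Xi_inner ha]
    linarith
  · intro hz
    set t : ℝ := ‖z‖ ^ 2 / (2 * inner ℝ z a) with ht
    have ht0 : 0 ≤ t := by positivity
    have hn : ‖t • a - z‖ = t := by
      have h1 : ‖t • a - z‖ ^ 2 = t ^ 2 := by
        rw [norm_sub_sq_real, norm_smul, real_inner_smul_left, ha, Real.norm_eq_abs,
          real_inner_comm, mul_one, sq_abs]
        have : ‖z‖ ^ 2 = t * (2 * inner ℝ z a) := by
          rw [ht]; field_simp
        rw [this]; ring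
      exact (sq_eq_sq₀ (norm_nonneg _) ht0).1 h1
    refine ⟨t • a - z, ?_, ?_⟩
    · rw [hn, inner_sub_left, real_inner_smul_left, real_inner_self_eq_norm_sq, ha]
      linarith
    · rw [hn]; abel

/-- the change of variables -/
theorem lintegral_Xi {a : E} (ha : ‖a‖ = 1) (G : E → ℝ≥0∞) :
    ∫⁻ z in {z | 0 < inner ℝ z a}, G z =
      ∫⁻ y in {y | inner ℝ y a < ‖y‖}, ENNReal.ofReal (1 - inner ℝ y a / ‖y‖) * G (‖y‖ • a - y) := by
  classical
  have hS : MeasurableSet {y : E | inner ℝ y a < ‖y‖} := by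
    apply IsOpen.measurableSet
    exact isOpen_lt (by fun_prop) continuous_norm
  have hne : ∀ y ∈ {y : E | inner ℝ y a < ‖y‖}, y ≠ 0 := by
    intro y hy h
    simp [h] at hy
  have hex : ∀ y : E, ∃ M : E →L[ℝ] E, y ≠ 0 → (HasFDerivAt (fun y : E => ‖y‖ • a - y) M y ∧
      ∀ v, M v = (inner ℝ (‖y‖⁻¹ • y) v : ℝ) • a - v) := by
    intro y
    by_cases hy : y = 0
    · exact ⟨0, fun h => absurd hy h⟩
    · obtain ⟨M, hM⟩ := Xi_hasFDerivAt a hy
      exact ⟨M, fun _ => hM⟩
  choose M hM using hex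
  rw [← Xi_image ha, lintegral_image_eq_lintegral_abs_det_fderiv_mul volume hS
    (fun y hy => (hM y (hne y hy)).1.hasFDerivWithinAt) (Xi_injOn ha) G]
  apply setLIntegral_congr_fun hS
  intro y hy
  have hy0 := hne y hy
  have hn : 0 < ‖y‖ := norm_pos_iff.2 hy0
  have h1 := abs_det_rank_one a (‖y‖⁻¹ • y) (M y) (hM y hy0).2
  have h2 : (1 : ℝ) - inner ℝ (‖y‖⁻¹ • y) a = 1 - inner ℝ y a / ‖y‖ := by
    rw [real_inner_smul_left]; field_simp
  have h3 : 0 ≤ 1 - inner ℝ y a / ‖y‖ := by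
    have hy' : inner ℝ y a < ‖y‖ := hy
    rw [sub_nonneg, div_le_one hn]
    exact hy'.le
  show ENNReal.ofReal |(M y).det| * _ = _
  rw [h1, h2, abs_of_nonneg h3]

end RC
end

section

/-!
# RC Split: splitting integrals along a reflection, polarisation (medium)

`H N w` is the set of the `x` that are preferred to `sg w x`, `Z N w` the set where none is preferred. `sg w` maps `H N w` onto the
complement of `H N w ∪ Z N w` and preserves `om` (`om_sg`), this gives `split`.
`om_pol`: apply `split` to the indicator functions of `pol N w A` and of `A`: on `H` the two sums `1(x) + 1(sg w x)` agree, on `Z` the sets agree.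
`Vp_pol`: apply `split` to `x ↦ 1_{pol A} (x) v(x)` and `1_A (x) v(x)` with `v x = ofReal (1 + ⟪x,N⟫)` (the real number is `≥ 0` a.e. by `om_norm` and
Cauchy-Schwarz) and to the integrand of `gain` (which is 0 on `Z` and at `sg w x`, `x ∈ H`). On `H` the identity is checked in the four cases
`x ∈ A` or not, `sg w x ∈ A` or not; the only nontrivial one is `x ∉ A`, `sg w x ∈ A`: `v(x) = v(sg w x) + ofReal (⟪x,N⟫ - ⟪sg w x,N⟫)`.
-/

set_option autoImplicit false

open MeasureTheory Module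
open scoped ENNReal NNReal

namespace RC

variable {E : Type*} [NormedAddCommGroup E] [InnerProductSpace ℝ E] [MeasurableSpace E]
  [BorelSpace E] [FiniteDimensional ℝ E]

private lemma splitaux_cont (w : E) : Continuous (fun x : E => sg w x) :=
  continuous_sg.comp (continuous_const.prodMk continuous_id)

private lemma splitaux_polH {N w : E} (hw : ‖w‖ = 1) {A : Set E} {x : E}
    (hx : inner ℝ (sg w x) N < inner ℝ x N) : x ∈ pol N w A ↔ (x ∈ A ∨ sg w x ∈ A) := by
  have hne : ¬ (inner ℝ (sg w x) N = inner ℝ x N) := hx.ne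
  simp only [pol, Set.mem_setOf_eq, hx, true_and, hne, false_and, or_false]
  tauto

private lemma splitaux_polL {N w : E} (hw : ‖w‖ = 1) {A : Set E} {x : E}
    (hx : inner ℝ (sg w x) N < inner ℝ x N) : sg w x ∈ pol N w A ↔ (x ∈ A ∧ sg w x ∈ A) := by
  have hne : ¬ (inner ℝ x N = inner ℝ (sg w x) N) := hx.ne'
  have hnl : ¬ (inner ℝ x N < inner ℝ (sg w x) N) := not_lt.mpr hx.le
  simp only [pol, Set.mem_setOf_eq, sg_sg hw, hnl, hne, false_and, or_false]
  tauto

private lemma splitaux_polZ {N w : E} (hw : ‖w‖ = 1) {A : Set E} {x : E}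
    (hx : inner ℝ (sg w x) N = inner ℝ x N) : x ∈ pol N w A ↔ x ∈ A := by
  have hnl : ¬ (inner ℝ x N < inner ℝ x N) := lt_irrefl _
  simp only [pol, Set.mem_setOf_eq, hx, hnl, false_and, false_or, true_and]
  tauto

theorem measurableSet_H (N : E) {w : E} (hw : ‖w‖ = 1) :
    MeasurableSet {x : E | inner ℝ (sg w x) N < inner ℝ x N} := by
  exact measurableSet_lt (((splitaux_cont w).inner continuous_const).measurable)
    ((continuous_id.inner continuous_const).measurable)

theorem measurableSet_Z (N : E) {w : E} (hw : ‖w‖ = 1) :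
    MeasurableSet {x : E | inner ℝ (sg w x) N = inner ℝ x N} := by
  exact measurableSet_eq_fun (((splitaux_cont w).inner continuous_const).measurable)
    ((continuous_id.inner continuous_const).measurable)

theorem split (N : E) {w : E} (hw : ‖w‖ = 1) (G : E → ℝ≥0∞) (hG : Measurable G) :
    ∫⁻ x, G x ∂(om E) =
      ∫⁻ x in {x : E | inner ℝ (sg w x) N < inner ℝ x N}, (G x + G (sg w x)) ∂(om E) +
        ∫⁻ x in {x : E | inner ℝ (sg w x) N = inner ℝ x N}, G x ∂(om E) := by
  have hH := measurableSet_H N hw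
  have hZ := measurableSet_Z N hw
  have h1 : ∫⁻ x in {x : E | inner ℝ (sg w x) N < inner ℝ x N}, G (sg w x) ∂(om E) =
      ∫⁻ x in ({x : E | inner ℝ (sg w x) N < inner ℝ x N} ∪
        {x : E | inner ℝ (sg w x) N = inner ℝ x N})ᶜ, G x ∂(om E) := by
    rw [← lintegral_indicator hH, ← lintegral_indicator (hH.union hZ).compl, ← lintegral_sg hw]
    refine lintegral_congr fun x => ?_
    by_cases hx : inner ℝ x N < inner ℝ (sg w x) N
    · rw [Set.indicator_of_mem, Set.indicator_of_mem, sg_sg hw]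
      · simp only [Set.mem_compl_iff, Set.mem_union, Set.mem_setOf_eq, not_or]
        exact ⟨not_lt.mpr hx.le, hx.ne'⟩
      · simp only [Set.mem_setOf_eq, sg_sg hw]
        exact hx
    · rw [Set.indicator_of_notMem, Set.indicator_of_notMem]
      · simp only [Set.mem_compl_iff, Set.mem_union, Set.mem_setOf_eq, not_or, not_and, not_lt,
          not_not]
        intro h
        exact le_antisymm (not_lt.mp hx) h
      · simp only [Set.mem_setOf_eq, sg_sg hw]
        exact hx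
  have hdisj : Disjoint {x : E | inner ℝ (sg w x) N < inner ℝ x N}
      {x : E | inner ℝ (sg w x) N = inner ℝ x N} := by
    rw [Set.disjoint_left]
    intro x h1 h2
    exact absurd h2 h1.ne
  rw [← lintegral_add_compl G (hH.union hZ), lintegral_union hZ hdisj, ← h1,
    lintegral_add_left hG]
  ring

theorem measurableSet_pol (N : E) {w : E} (hw : ‖w‖ = 1) {A : Set E} (hA : MeasurableSet A) :
    MeasurableSet (pol N w A) := by
  have hc : Measurable (fun x : E => sg w x) := (splitaux_cont w).measurable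
  have h2 : MeasurableSet {x : E | sg w x ∈ A} := hc hA
  exact (hA.inter h2).union (((measurableSet_H N hw).inter (hA.union h2)).union
    ((measurableSet_Z N hw).inter hA))

theorem om_pol (N : E) {w : E} (hw : ‖w‖ = 1) {A : Set E} (hA : MeasurableSet A) :
    om E (pol N w A) = om E A := by
  have hP := measurableSet_pol N hw hA
  rw [← lintegral_indicator_one hP, ← lintegral_indicator_one hA,
    split N hw _ (measurable_one.indicator hP), split N hw _ (measurable_one.indicator hA)]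
  congr 1
  · refine setLIntegral_congr_fun (measurableSet_H N hw) ?_
    intro x hx
    have hx' : inner ℝ (sg w x) N < inner ℝ x N := hx
    have e1 := splitaux_polH (A := A) hw hx'
    have e2 := splitaux_polL (A := A) hw hx'
    by_cases ha : x ∈ A <;> by_cases hb : sg w x ∈ A <;>
      simp [Set.indicator, e1, e2, ha, hb]
  · refine setLIntegral_congr_fun (measurableSet_Z N hw) ?_
    intro x hx
    have e1 := splitaux_polZ (A := A) hw (x := x) (N := N) hx
    simp only [Set.indicator]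
    split_ifs <;> tauto

theorem Vp_pol {N w : E} (hN : ‖N‖ = 1) (hw : ‖w‖ = 1) {A : Set E} (hA : MeasurableSet A) :
    Vp N (pol N w A) = Vp N A + gain N A w := by
  classical
  have hP := measurableSet_pol N hw hA
  have hcs : Measurable (fun x : E => sg w x) := (splitaux_cont w).measurable
  have hin : Measurable (fun x : E => (inner ℝ x N : ℝ)) :=
    (continuous_id.inner continuous_const).measurable
  have hin2 : Measurable (fun x : E => (inner ℝ (sg w x) N : ℝ)) :=
    ((splitaux_cont w).inner continuous_const).measurable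
  have hv : Measurable (fun x : E => ENNReal.ofReal (1 + inner ℝ x N)) :=
    ENNReal.measurable_ofReal.comp (hin.const_add 1)
  have hg : Measurable (fun x : E => if x ∉ A ∧ sg w x ∈ A then
      ENNReal.ofReal (inner ℝ x N - inner ℝ (sg w x) N) else 0) := by
    refine Measurable.ite ?_ (ENNReal.measurable_ofReal.comp (hin.sub hin2)) measurable_const
    exact hA.compl.inter (hcs hA)
  have hgain : gain N A w = ∫⁻ x, (if x ∉ A ∧ sg w x ∈ A then
      ENNReal.ofReal (inner ℝ x N - inner ℝ (sg w x) N) else 0) ∂(om E) := by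
    unfold gain
    refine lintegral_congr fun x => ?_
    split_ifs <;> rfl
  rw [hgain]
  unfold Vp
  rw [← lintegral_indicator hP, ← lintegral_indicator hA, ← lintegral_add_right _ hg,
    split N hw _ (hv.indicator hP)]
  refine Eq.trans ?_ (split N hw (fun x => A.indicator (fun x => ENNReal.ofReal (1 + inner ℝ x N)) x +
    (if x ∉ A ∧ sg w x ∈ A then ENNReal.ofReal (inner ℝ x N - inner ℝ (sg w x) N) else 0))
    ((hv.indicator hA).add hg)).symm
  congr 1
  · refine setLIntegral_congr_fun_ae (measurableSet_H N hw) ?_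
    filter_upwards [om_norm (E := E)] with x hx1 hx
    have hx' : inner ℝ (sg w x) N < inner ℝ x N := hx
    have e1 := splitaux_polH (A := A) hw hx'
    have e2 := splitaux_polL (A := A) hw hx'
    have hneg : ENNReal.ofReal (inner ℝ (sg w x) N - inner ℝ x N) = 0 :=
      ENNReal.ofReal_of_nonpos (by linarith)
    have hs1 : ‖sg w x‖ = 1 := by rw [norm_sg hw, hx1]
    have hcs1 : -1 ≤ inner ℝ (sg w x) N := by
      have h := abs_real_inner_le_norm (sg w x) N
      rw [hs1, hN, mul_one] at h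
      exact (abs_le.mp h).1
    have hsum : ENNReal.ofReal (1 + inner ℝ x N) = ENNReal.ofReal (1 + inner ℝ (sg w x) N) +
        ENNReal.ofReal (inner ℝ x N - inner ℝ (sg w x) N) := by
      rw [← ENNReal.ofReal_add (by linarith) (by linarith)]
      congr 1
      ring
    by_cases ha : x ∈ A <;> by_cases hb : sg w x ∈ A
    · simp [Set.indicator, e1, e2, ha, hb, sg_sg hw]
    · simp [Set.indicator, e1, e2, ha, hb, sg_sg hw, hneg]
    · simp only [Set.indicator, e1, e2, ha, hb, sg_sg hw]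
      simp [hsum]
      exact add_comm _ _
    · simp [Set.indicator, e1, e2, ha, hb, sg_sg hw]
  · refine setLIntegral_congr_fun (measurableSet_Z N hw) ?_
    intro x hx
    have hx' : inner ℝ (sg w x) N = inner ℝ x N := hx
    have e1 := splitaux_polZ (A := A) hw hx'
    simp [Set.indicator, e1, hx']

end RC
end

section

/-!
# RC KPol: polarisation and `kk` (medium)

`kk A r x = om.real (A ∩ cap x r)` is the integral of `1_A(y) γ(x,y)`, `γ(x,y) = 1[r < ⟪y,x⟫]`, `γ(sg w x, sg w y) = γ(x,y)`, `γ(sg w x, y) = γ(x, sg w y)`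
(`inner_sg_sg`, `inner_sg`). By `split`, with `a = 1_A(y)`, `a' = 1_A(sg w y)`, `p = γ(x,y)`, `q = γ(x, sg w y)`:
`kk A r x = ∫_H (a p + a' q) + ∫_Z a γ`, `kk A r (sg w x) = ∫_H (a q + a' p) + ∫_Z a γ(sg w x, y)`. Polarisation replaces `(a, a')` by `(max a a', min a a')`
on `H` and changes nothing on `Z`. So the sum does not change (`kk_pol_add`). If `x` and `y` both lie in `H` then `q ≤ p`:
`⟪sg w y, N⟫ = ⟪y,N⟫ - 2⟪y,w⟫⟪w,N⟫`, so `0 < ⟪y,w⟫⟪w,N⟫` and `0 < ⟪x,w⟫⟪w,N⟫`, hence `0 < ⟪x,w⟫⟪y,w⟫` and `⟪sg w y, x⟫ < ⟪y,x⟫`. Then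
`max a a' * p + min a a' * q ≥ a p + a' q, a q + a' p` (`kk_pol_ge`; on `Z`: for the second inequality one needs `γ(x,y) ≥ γ(sg w x,y)` or equality for `y ∈ Z`:
for `x ∈ H` one has `⟪w,N⟫ ≠ 0`, so `y ∈ Z` means `⟪y,w⟫ = 0` and `⟪y, sg w x⟫ = ⟪y,x⟫`).
`pol_cap`: case distinction. `kk_mono_cap`: if `⟪x,N⟫ < ⟪x',N⟫` take `w = ‖x'-x‖⁻¹ • (x'-x)` (`sg_swap`: `sg w x' = x`), `x' ∈ H`, and use `kk_pol_ge` for `A = cap N c`
and `pol_cap`. If `⟪x,N⟫ = ⟪x',N⟫` and `x ≠ x'`, the same `w` is orthogonal to `N`, so `sg w N = N` and `sg w` preserves `cap N c`: `kk (cap N c) r x = kk (cap N c) r x'`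
by `om_sg`.
-/

set_option autoImplicit false
set_option linter.unusedSectionVars false

open MeasureTheory Module
open scoped ENNReal NNReal

namespace RC

variable {E : Type*} [NormedAddCommGroup E] [InnerProductSpace ℝ E] [MeasurableSpace E]
  [BorelSpace E] [FiniteDimensional ℝ E]

private theorem kpol_mcap (x : E) (r : ℝ) : MeasurableSet (cap x r) := by
  have h1 : Measurable fun y : E => inner ℝ y x := by fun_prop
  exact measurableSet_lt measurable_const h1

private theorem kpol_inner_sg (w x N : E) :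
    inner ℝ (sg w x) N = inner ℝ x N - 2 * (inner ℝ x w * inner ℝ w N) := by
  unfold sg
  rw [inner_sub_left, real_inner_smul_left]
  ring

private theorem kpol_ind (S : Set E) (hS : MeasurableSet S) :
    om E S = ∫⁻ y, S.indicator 1 y ∂(om E) := (lintegral_indicator_one hS).symm

theorem measurable_kk {A : Set E} (hA : MeasurableSet A) (r : ℝ) : Measurable (kk A r) := by
  have h1 : MeasurableSet {p : E × E | p.2 ∈ A ∧ r < inner ℝ p.2 p.1} := by
    have h2 : Measurable fun p : E × E => inner ℝ p.2 p.1 := by fun_prop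
    exact (measurable_snd hA).inter (measurableSet_lt measurable_const h2)
  have h3 := measurable_measure_prodMk_left (ν := om E) h1
  exact h3.ennreal_toReal

private theorem kpol_mem_H {N w : E} (hw : ‖w‖ = 1) {A : Set E} {y : E}
    (hy : inner ℝ (sg w y) N < inner ℝ y N) :
    (y ∈ pol N w A ↔ (y ∈ A ∨ sg w y ∈ A)) ∧ (sg w y ∈ pol N w A ↔ (y ∈ A ∧ sg w y ∈ A)) := by
  unfold pol
  simp only [Set.mem_ofPred_eq, sg_sg hw]
  constructor
  · constructor
    · rintro (h | h | h)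
      · exact Or.inl h.1
      · exact h.2
      · exact Or.inl h.2
    · intro h
      exact Or.inr (Or.inl ⟨hy, h⟩)
  · constructor
    · rintro (h | h | h)
      · exact ⟨h.2, h.1⟩
      · exact absurd h.1 (not_lt.2 hy.le)
      · exact absurd h.1 (ne_of_gt hy)
    · intro h
      exact Or.inl ⟨h.2, h.1⟩

private theorem kpol_mem_Z {N w : E} {A : Set E} {y : E}
    (hy : inner ℝ (sg w y) N = inner ℝ y N) : y ∈ pol N w A ↔ y ∈ A := by
  unfold pol
  simp only [Set.mem_ofPred_eq]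
  constructor
  · rintro (h | h | h)
    · exact h.1
    · exact absurd h.1 (by rw [hy]; exact lt_irrefl _)
    · exact h.2
  · intro h
    exact Or.inr (Or.inr ⟨hy, h⟩)

private theorem kpol_cap_mem {w : E} (hw : ‖w‖ = 1) (x y : E) (r : ℝ) :
    (sg w y ∈ cap x r ↔ y ∈ cap (sg w x) r) ∧ (sg w y ∈ cap (sg w x) r ↔ y ∈ cap x r) := by
  unfold cap
  simp only [Set.mem_ofPred_eq]
  rw [inner_sg hw, inner_sg_sg hw]
  exact ⟨Iff.rfl, Iff.rfl⟩

private theorem kpol_le (N : E) {w : E} (hw : ‖w‖ = 1) {S T : Set E} (hS : MeasurableSet S)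
    (hT : MeasurableSet T)
    (hH : ∀ y, inner ℝ (sg w y) N < inner ℝ y N →
      S.indicator (1 : E → ℝ≥0∞) y + S.indicator (1 : E → ℝ≥0∞) (sg w y) ≤
        T.indicator (1 : E → ℝ≥0∞) y + T.indicator (1 : E → ℝ≥0∞) (sg w y))
    (hZ : ∀ y, inner ℝ (sg w y) N = inner ℝ y N → (y ∈ S ↔ y ∈ T)) : om E S ≤ om E T := by
  rw [kpol_ind S hS, kpol_ind T hT,
    split N hw (fun y => S.indicator (1 : E → ℝ≥0∞) y) (measurable_one.indicator hS),
    split N hw (fun y => T.indicator (1 : E → ℝ≥0∞) y) (measurable_one.indicator hT)]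
  refine add_le_add ?_ ?_
  · exact setLIntegral_mono' (measurableSet_H N hw) fun y hy => hH y hy
  · refine (setLIntegral_congr_fun (measurableSet_Z N hw) fun y hy => ?_).le
    have e1 := hZ y hy
    by_cases h : y ∈ S
    · have h' := e1.1 h
      show S.indicator (1 : E → ℝ≥0∞) y = T.indicator (1 : E → ℝ≥0∞) y
      rw [Set.indicator_of_mem h, Set.indicator_of_mem h']
    · have h' : y ∉ T := fun h2 => h (e1.2 h2)
      show S.indicator (1 : E → ℝ≥0∞) y = T.indicator (1 : E → ℝ≥0∞) y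
      rw [Set.indicator_of_notMem h, Set.indicator_of_notMem h']

private theorem kpol_indm (S : Set E) (hS : MeasurableSet S) :
    Measurable (fun y => S.indicator (1 : E → ℝ≥0∞) y) := measurable_one.indicator hS

theorem kk_pol_add (N : E) {w : E} (hw : ‖w‖ = 1) {A : Set E} (hA : MeasurableSet A) (r : ℝ) (x : E) :
    kk (pol N w A) r x + kk (pol N w A) r (sg w x) = kk A r x + kk A r (sg w x) := by
  classical
  have hP := measurableSet_pol N hw hA
  have hc1 := kpol_mcap x r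
  have hc2 := kpol_mcap (sg w x) r
  have key : om E (pol N w A ∩ cap x r) + om E (pol N w A ∩ cap (sg w x) r) =
      om E (A ∩ cap x r) + om E (A ∩ cap (sg w x) r) := by
    rw [kpol_ind _ (hP.inter hc1), kpol_ind _ (hP.inter hc2), kpol_ind _ (hA.inter hc1),
      kpol_ind _ (hA.inter hc2), ← lintegral_add_left (kpol_indm _ (hP.inter hc1)),
      ← lintegral_add_left (kpol_indm _ (hA.inter hc1)),
      split N hw (fun y => (pol N w A ∩ cap x r).indicator (1 : E → ℝ≥0∞) y +
        (pol N w A ∩ cap (sg w x) r).indicator (1 : E → ℝ≥0∞) y)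
        ((kpol_indm _ (hP.inter hc1)).add (kpol_indm _ (hP.inter hc2))),
      split N hw (fun y => (A ∩ cap x r).indicator (1 : E → ℝ≥0∞) y +
        (A ∩ cap (sg w x) r).indicator (1 : E → ℝ≥0∞) y)
        ((kpol_indm _ (hA.inter hc1)).add (kpol_indm _ (hA.inter hc2)))]
    congr 1
    · refine setLIntegral_congr_fun (measurableSet_H N hw) fun y hy => ?_
      obtain ⟨e1, e2⟩ := kpol_mem_H (A := A) hw hy
      obtain ⟨e3, e4⟩ := kpol_cap_mem hw x y r
      simp only [Set.indicator_apply, Set.mem_inter_iff, e1, e2, e3, e4, Pi.one_apply]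
      by_cases a1 : y ∈ A <;> by_cases a2 : sg w y ∈ A <;> by_cases p : y ∈ cap x r <;>
        by_cases q : y ∈ cap (sg w x) r <;> simp [a1, a2, p, q]
    · refine setLIntegral_congr_fun (measurableSet_Z N hw) fun y hy => ?_
      have e1 := kpol_mem_Z (A := A) hy
      simp only [Set.indicator_apply, Set.mem_inter_iff, e1]
  unfold kk Measure.real
  rw [← ENNReal.toReal_add (measure_ne_top _ _) (measure_ne_top _ _), key,
    ENNReal.toReal_add (measure_ne_top _ _) (measure_ne_top _ _)]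

theorem kk_pol_ge {N w : E} (hw : ‖w‖ = 1) {A : Set E} (hA : MeasurableSet A) (r : ℝ) {x : E}
    (hx : inner ℝ (sg w x) N < inner ℝ x N) :
    kk A r x ≤ kk (pol N w A) r x ∧ kk A r (sg w x) ≤ kk (pol N w A) r x := by
  classical
  have hP := measurableSet_pol N hw hA
  have hc1 := kpol_mcap x r
  have hc2 := kpol_mcap (sg w x) r
  have hx2 : 0 < inner ℝ x w * inner ℝ w N := by
    rw [kpol_inner_sg] at hx
    linarith
  have hqp : ∀ y : E, inner ℝ (sg w y) N < inner ℝ y N → y ∈ cap (sg w x) r → y ∈ cap x r := by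
    intro y hy hq
    have hy2 : 0 < inner ℝ y w * inner ℝ w N := by
      rw [kpol_inner_sg] at hy
      linarith
    have hxy : 0 < inner ℝ y w * inner ℝ w x := by
      have h1 : 0 < (inner ℝ x w * inner ℝ w N) * (inner ℝ y w * inner ℝ w N) := mul_pos hx2 hy2
      have h2 : (inner ℝ x w * inner ℝ w N) * (inner ℝ y w * inner ℝ w N) =
          (inner ℝ y w * inner ℝ w x) * (inner ℝ w N) ^ 2 := by
        rw [real_inner_comm w x]
        ring
      rw [h2] at h1
      exact pos_of_mul_pos_left h1 (sq_nonneg _)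
    have hq' : r < inner ℝ y (sg w x) := hq
    rw [← inner_sg hw, kpol_inner_sg] at hq'
    show r < inner ℝ y x
    linarith
  constructor
  · have key : om E (A ∩ cap x r) ≤ om E (pol N w A ∩ cap x r) := by
      refine kpol_le N hw (hA.inter hc1) (hP.inter hc1) (fun y hy => ?_) (fun y hy => ?_)
      · obtain ⟨e1, e2⟩ := kpol_mem_H (A := A) hw hy
        obtain ⟨e3, e4⟩ := kpol_cap_mem hw x y r
        have e5 := hqp y hy
        simp only [Set.indicator_apply, Set.mem_inter_iff, e1, e2, e3, Pi.one_apply]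
        by_cases a1 : y ∈ A <;> by_cases a2 : sg w y ∈ A <;> by_cases p : y ∈ cap x r <;>
          by_cases q : y ∈ cap (sg w x) r <;> simp [a1, a2, p, q] <;> exact absurd (e5 q) p
      · simp only [Set.mem_inter_iff, kpol_mem_Z (A := A) hy]
    exact ENNReal.toReal_mono (measure_ne_top _ _) key
  · have key : om E (A ∩ cap (sg w x) r) ≤ om E (pol N w A ∩ cap x r) := by
      refine kpol_le N hw (hA.inter hc2) (hP.inter hc1) (fun y hy => ?_) (fun y hy => ?_)
      · obtain ⟨e1, e2⟩ := kpol_mem_H (A := A) hw hy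
        obtain ⟨e3, e4⟩ := kpol_cap_mem hw x y r
        have e5 := hqp y hy
        simp only [Set.indicator_apply, Set.mem_inter_iff, e1, e2, e3, e4, Pi.one_apply]
        by_cases a1 : y ∈ A <;> by_cases a2 : sg w y ∈ A <;> by_cases p : y ∈ cap x r <;>
          by_cases q : y ∈ cap (sg w x) r <;> simp [a1, a2, p, q] <;> exact absurd (e5 q) p
      · have hwN : inner ℝ w N ≠ 0 := by
          intro h0
          rw [h0, mul_zero] at hx2
          exact lt_irrefl _ hx2
        have hyw : inner ℝ y w = 0 := by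
          have h1 : inner ℝ (sg w y) N = inner ℝ y N := hy
          rw [kpol_inner_sg] at h1
          have h2 : inner ℝ y w * inner ℝ w N = 0 := by linarith
          exact (mul_eq_zero.1 h2).resolve_right hwN
        have e2 : y ∈ cap (sg w x) r ↔ y ∈ cap x r := by
          unfold cap
          simp only [Set.mem_ofPred_eq]
          rw [← inner_sg hw, kpol_inner_sg, hyw, zero_mul, mul_zero, sub_zero]
        simp only [Set.mem_inter_iff, kpol_mem_Z (A := A) hy, e2]
    exact ENNReal.toReal_mono (measure_ne_top _ _) key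

theorem pol_cap (N w : E) (c : ℝ) : pol N w (cap N c) = cap N c := by
  ext x
  unfold pol cap
  simp only [Set.mem_ofPred_eq]
  constructor
  · rintro (h | h | h)
    · exact h.1
    · rcases h.2 with h2 | h2
      · exact h2
      · exact h2.trans h.1
    · exact h.2
  · intro h
    rcases lt_trichotomy (inner ℝ (sg w x) N) (inner ℝ x N) with h1 | h1 | h1
    · exact Or.inr (Or.inl ⟨h1, Or.inl h⟩)
    · exact Or.inr (Or.inr ⟨h1, h⟩)
    · exact Or.inl ⟨h, h.trans h1⟩

theorem kk_mono_cap (N : E) (c r : ℝ) {x x' : E} (hx : ‖x‖ = 1) (hx' : ‖x'‖ = 1)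
    (h : inner ℝ x N ≤ inner ℝ x' N) : kk (cap N c) r x ≤ kk (cap N c) r x' := by
  by_cases hne : x' = x
  · rw [hne]
  obtain ⟨hw, hsw⟩ := sg_swap (hx'.trans hx.symm) hne
  set w : E := ‖x' - x‖⁻¹ • (x' - x) with hwdef
  rcases h.lt_or_eq with hlt | heq
  · have h1 : inner ℝ (sg w x') N < inner ℝ x' N := by rw [hsw]; exact hlt
    have h2 := (kk_pol_ge hw (kpol_mcap N c) r h1).2
    rwa [hsw, pol_cap] at h2
  · have hwN : inner ℝ w N = 0 := by
      rw [hwdef, real_inner_smul_left, inner_sub_left, heq, sub_self, mul_zero]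
    have hpre : sg w ⁻¹' (cap N c ∩ cap x' r) = cap N c ∩ cap x r := by
      ext y
      simp only [Set.mem_preimage, Set.mem_inter_iff]
      have e1 : sg w y ∈ cap N c ↔ y ∈ cap N c := by
        unfold cap
        simp only [Set.mem_ofPred_eq]
        rw [kpol_inner_sg, hwN, mul_zero, mul_zero, sub_zero]
      have e2 : sg w y ∈ cap x' r ↔ y ∈ cap x r := by
        rw [(kpol_cap_mem hw x' y r).1, hsw]
      rw [e1, e2]
    have h1 := (om_sg hw).measure_preimage
      (((kpol_mcap N c).inter (kpol_mcap x' r)).nullMeasurableSet)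
    rw [hpre] at h1
    unfold kk Measure.real
    rw [h1]

end RC
end

section

/-!
# RC CVc: the image of `om` under `u ↦ sg u a` (medium)

`n = finrank ℝ E ≥ 2`, `‖a‖ = 1`. Put `x̂ = ‖x‖⁻¹ • x`. Apply `lintegral_Xi` to `z ↦ 1[‖z‖ < 1] G (sg ẑ a)`.
For `z = ‖y‖ a - y`, `⟪y,a⟫ < ‖y‖`: `z = ‖y‖ (a - ŷ)`, so `‖z‖ = ‖y‖ ‖a - ŷ‖` and `sg ẑ a = ŷ` (`sg_swap`, `sg` is even in `u`), and `1 - ⟪ŷ,a⟫ = ‖a - ŷ‖²/2`.
Left side: `∫_{0 < ⟪z,a⟫, ‖z‖<1} G (sg ẑ a) = (1/n) ∫_{0 < ⟪u,a⟫} G (sg u a) dom` (`polar_ball` with `h = 1`) `= (1/(2n)) ∫ G (sg u a) dom`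
(`u ↦ -u` preserves `om` and `sg (-u) a = sg u a`; `level_null` for `⟪u,a⟫ = 0`). Right side: `∫_{⟪y,a⟫ < ‖y‖, ‖y‖ ‖a-ŷ‖ < 1} (‖a-ŷ‖²/2) G ŷ =
(1/(2n)) ∫ ‖a - x‖² G x ‖a - x‖^(-n) dom` (`polar_ball` with `h x = ‖a - x‖`, positive a.e. by `level_null` with `c = 1`).
Off the null set `{⟪x,a⟫ = 1}` (so `x ≠ a`) one has `‖a-x‖² ‖a-x‖^(-n) = W a x`.
-/

set_option autoImplicit false

open MeasureTheory Module
open scoped ENNReal NNReal

namespace RC

variable {E : Type*} [NormedAddCommGroup E] [InnerProductSpace ℝ E] [MeasurableSpace E]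
  [BorelSpace E] [FiniteDimensional ℝ E]

open Classical in
/-- left side -/
private theorem cv_left (hn : 2 ≤ finrank ℝ E) {a : E} (ha : ‖a‖ = 1) (G : E → ℝ≥0∞)
    (hG : Measurable G) :
    ∫⁻ z in {z : E | 0 < inner ℝ z a}, (if ‖z‖ < 1 then G (sg (‖z‖⁻¹ • z) a) else 0) =
      ENNReal.ofReal (1 / finrank ℝ E) *
        ∫⁻ x, (if 0 < inner ℝ x a then G (sg x a) else 0) ∂(om E) := by
  have hsg : Measurable fun x : E => sg x a :=
    (continuous_sg.comp (continuous_id.prodMk continuous_const)).measurable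
  have hin : Measurable fun x : E => (inner ℝ x a : ℝ) :=
    (continuous_id.inner continuous_const).measurable
  have hG' : Measurable fun x : E => (if 0 < inner ℝ x a then G (sg x a) else 0) :=
    Measurable.ite (measurableSet_lt measurable_const hin) (hG.comp hsg) measurable_const
  have h1 := polar_ball (by omega : 1 ≤ finrank ℝ E)
    (fun x : E => (if 0 < inner ℝ x a then G (sg x a) else 0)) hG' (fun _ => (1 : ℝ))
    measurable_const (Filter.Eventually.of_forall fun _ => one_pos)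
  simp only [mul_one, inv_one, one_pow, ENNReal.ofReal_one] at h1
  rw [← h1, ← lintegral_indicator (measurableSet_lt measurable_const hin),
    ← lintegral_indicator (measurableSet_lt measurable_norm measurable_const)]
  refine lintegral_congr fun z => ?_
  simp only [Set.indicator, Set.mem_ofPred_eq]
  by_cases hz : z = 0
  · subst hz
    simp
  have hzn : 0 < ‖z‖ := norm_pos_iff.2 hz
  have hiff : (0 < inner ℝ (‖z‖⁻¹ • z) a) ↔ (0 < inner ℝ z a) := by
    rw [real_inner_smul_left]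
    constructor
    · intro h
      exact (pos_iff_pos_of_mul_pos h).1 (by positivity)
    · intro h
      positivity
  by_cases h2 : ‖z‖ < 1 <;> by_cases h3 : 0 < inner ℝ z a
  · simp [h2, h3, hiff.2 h3]
  · have : ¬ 0 < inner ℝ (‖z‖⁻¹ • z) a := fun h => h3 (hiff.1 h)
    simp only [h2, h3, this, if_true, if_false]
  · simp [h2]
  · simp [h2]

open Classical in
/-- right side -/
private theorem cv_right (hn : 2 ≤ finrank ℝ E) {a : E} (ha : ‖a‖ = 1) (G : E → ℝ≥0∞)
    (hG : Measurable G) :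
    ∫⁻ y in {y : E | inner ℝ y a < ‖y‖}, ENNReal.ofReal (1 - inner ℝ y a / ‖y‖) *
        (if ‖‖y‖ • a - y‖ < 1 then G (sg (‖‖y‖ • a - y‖⁻¹ • (‖y‖ • a - y)) a) else 0) =
      ENNReal.ofReal (1 / finrank ℝ E) *
        ∫⁻ x, (if inner ℝ x a < ‖x‖ then G x * ENNReal.ofReal (‖a - x‖ ^ 2 / 2) else 0) *
          ENNReal.ofReal ((‖a - x‖)⁻¹ ^ finrank ℝ E) ∂(om E) := by
  have hin : Measurable fun x : E => (inner ℝ x a : ℝ) :=
    (continuous_id.inner continuous_const).measurable
  have hh : Measurable fun x : E => ‖a - x‖ := (continuous_const.sub continuous_id).norm.measurable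
  have hG' : Measurable fun x : E =>
      (if inner ℝ x a < ‖x‖ then G x * ENNReal.ofReal (‖a - x‖ ^ 2 / 2) else 0) :=
    Measurable.ite (measurableSet_lt hin measurable_norm)
      (hG.mul ((hh.pow_const 2).div_const 2).ennreal_ofReal) measurable_const
  have hpos : ∀ᵐ x ∂(om E), 0 < ‖a - x‖ := by
    have h0 : ∀ᵐ x ∂(om E), ¬ (inner ℝ x a = (1 : ℝ)) := by
      rw [ae_iff]
      simpa using level_null hn ha 1
    filter_upwards [h0] with x hx
    rw [norm_pos_iff, sub_ne_zero]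
    rintro rfl
    apply hx
    rw [real_inner_self_eq_norm_sq, ha, one_pow]
  have h1 := polar_ball (by omega : 1 ≤ finrank ℝ E) _ hG' (fun x => ‖a - x‖) hh hpos
  have hmeas : Measurable fun y : E => ‖y‖ * ‖a - ‖y‖⁻¹ • y‖ :=
    measurable_norm.mul ((measurable_const.sub (measurable_norm.inv.smul measurable_id)).norm)
  rw [← h1, ← lintegral_indicator (measurableSet_lt hin measurable_norm),
    ← lintegral_indicator (measurableSet_lt hmeas measurable_const)]
  refine lintegral_congr fun y => ?_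
  simp only [Set.indicator, Set.mem_ofPred_eq]
  by_cases hy : y = 0
  · subst hy
    simp
  have hyn : 0 < ‖y‖ := norm_pos_iff.2 hy
  have hyh : ‖‖y‖⁻¹ • y‖ = 1 := by
    rw [norm_smul, norm_inv, norm_norm, inv_mul_cancel₀ hyn.ne']
  have hfac : ‖y‖ • a - y = ‖y‖ • (a - ‖y‖⁻¹ • y) := by
    rw [smul_sub, smul_smul, mul_inv_cancel₀ hyn.ne', one_smul]
  have hnz : ‖‖y‖ • a - y‖ = ‖y‖ * ‖a - ‖y‖⁻¹ • y‖ := by
    rw [hfac, norm_smul, norm_norm]
  have hinn : inner ℝ (‖y‖⁻¹ • y) a = inner ℝ y a / ‖y‖ := by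
    rw [real_inner_smul_left]
    ring
  have hiff : (inner ℝ (‖y‖⁻¹ • y) a < ‖‖y‖⁻¹ • y‖) ↔ (inner ℝ y a < ‖y‖) := by
    rw [hyh, hinn, div_lt_one hyn]
  by_cases h3 : inner ℝ y a < ‖y‖
  · have h4 := hiff.2 h3
    have hne : a ≠ ‖y‖⁻¹ • y := by
      intro hc
      rw [← hc, real_inner_self_eq_norm_sq, ha] at h4
      norm_num at h4
    have hsub : 0 < ‖a - ‖y‖⁻¹ • y‖ := norm_pos_iff.2 (sub_ne_zero.2 hne)
    have hdir : ‖‖y‖ • a - y‖⁻¹ • (‖y‖ • a - y) =
        ‖a - ‖y‖⁻¹ • y‖⁻¹ • (a - ‖y‖⁻¹ • y) := by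
      rw [hnz, hfac, smul_smul, mul_inv, mul_comm ‖y‖⁻¹, mul_assoc, inv_mul_cancel₀ hyn.ne',
        mul_one]
    have hsw := (sg_swap (x := a) (y := ‖y‖⁻¹ • y) (by rw [ha, hyh]) hne).2
    have hsq : ‖a - ‖y‖⁻¹ • y‖ ^ 2 / 2 = 1 - inner ℝ y a / ‖y‖ := by
      rw [@norm_sub_sq_real, ha, hyh, real_inner_comm, hinn]
      ring
    rw [if_pos h3, hdir, hsw, hnz]
    by_cases h5 : ‖y‖ * ‖a - ‖y‖⁻¹ • y‖ < 1
    · rw [if_pos h5, if_pos h5, if_pos h4, hsq, mul_comm]
    · rw [if_neg h5, if_neg h5, mul_zero]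
  · have h4 : ¬ (inner ℝ (‖y‖⁻¹ • y) a < ‖‖y‖⁻¹ • y‖) := fun h => h3 (hiff.1 h)
    rw [if_neg h3, if_neg h4]
    simp

/-- the change of variables `x = sg u a` -/
theorem cv (hn : 2 ≤ finrank ℝ E) {a : E} (ha : ‖a‖ = 1) (G : E → ℝ≥0∞) (hG : Measurable G) :
    ∫⁻ u, G (sg u a) ∂(om E) = ∫⁻ x, G x * W a x ∂(om E) := by
  classical
  have hsg : Measurable fun x : E => sg x a :=
    (continuous_sg.comp (continuous_id.prodMk continuous_const)).measurable
  have hin : Measurable fun x : E => (inner ℝ x a : ℝ) :=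
    (continuous_id.inner continuous_const).measurable
  have h1 := lintegral_Xi ha (fun z => if ‖z‖ < 1 then G (sg (‖z‖⁻¹ • z) a) else 0)
  rw [cv_left hn ha G hG, cv_right hn ha G hG] at h1
  have hn0 : (0 : ℝ) < 1 / finrank ℝ E := by
    have : (0 : ℝ) < finrank ℝ E := by
      have : 0 < finrank ℝ E := by omega
      exact_mod_cast this
    positivity
  have h2 := (ENNReal.mul_right_inj (ENNReal.ofReal_pos.2 hn0).ne' ENNReal.ofReal_ne_top).1 h1
  -- right side
  have hR : ∫⁻ x, (if inner ℝ x a < ‖x‖ then G x * ENNReal.ofReal (‖a - x‖ ^ 2 / 2) else 0) *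
          ENNReal.ofReal ((‖a - x‖)⁻¹ ^ finrank ℝ E) ∂(om E) =
        ∫⁻ x, 2⁻¹ * (G x * W a x) ∂(om E) := by
    refine lintegral_congr_ae ?_
    have h0 : ∀ᵐ x ∂(om E), ¬ (inner ℝ x a = (1 : ℝ)) := by
      rw [ae_iff]
      simpa using level_null hn ha 1
    filter_upwards [h0, om_norm (E := E)] with x hx hx1
    have hle : inner ℝ x a ≤ (1 : ℝ) := by
      have := real_inner_le_norm x a
      rwa [hx1, ha, one_mul] at this
    have hlt : inner ℝ x a < ‖x‖ := by
      rw [hx1]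
      exact lt_of_le_of_ne hle hx
    rw [if_pos hlt]
    have hne : a - x ≠ 0 := by
      rw [sub_ne_zero]
      rintro rfl
      apply hx
      rw [real_inner_self_eq_norm_sq, ha, one_pow]
    have hd : 0 < ‖a - x‖ := norm_pos_iff.2 hne
    have hW : W a x = ENNReal.ofReal ((‖a - x‖)⁻¹ ^ (finrank ℝ E - 2)) := by
      unfold W
      rw [← ofReal_norm, norm_sub_rev, ← ENNReal.ofReal_inv_of_pos hd,
        ENNReal.ofReal_pow (by positivity)]
    have h2inv : (2⁻¹ : ℝ≥0∞) = ENNReal.ofReal (1 / 2) := by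
      rw [one_div, ENNReal.ofReal_inv_of_pos (by norm_num)]
      norm_num
    rw [hW, h2inv, mul_assoc, ← ENNReal.ofReal_mul (by positivity)]
    rw [show ENNReal.ofReal (1 / 2) * (G x * ENNReal.ofReal ((‖a - x‖)⁻¹ ^ (finrank ℝ E - 2))) =
      G x * (ENNReal.ofReal (1 / 2) * ENNReal.ofReal ((‖a - x‖)⁻¹ ^ (finrank ℝ E - 2))) by ring]
    rw [← ENNReal.ofReal_mul (by norm_num)]
    congr 2
    obtain ⟨m, hm⟩ : ∃ m, finrank ℝ E = m + 2 := ⟨finrank ℝ E - 2, by omega⟩
    rw [hm, Nat.add_sub_cancel, pow_add]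
    field_simp
  rw [hR, lintegral_const_mul' _ _ (by norm_num)] at h2
  -- left side
  have hL : ∫⁻ u, G (sg u a) ∂(om E) =
      2 * ∫⁻ x, (if 0 < inner ℝ x a then G (sg x a) else 0) ∂(om E) := by
    have hneg : ∫⁻ x, (if inner ℝ x a < 0 then G (sg x a) else 0) ∂(om E) =
        ∫⁻ x, (if 0 < inner ℝ x a then G (sg x a) else 0) ∂(om E) := by
      have hmp := om_isometry (LinearIsometryEquiv.neg ℝ (E := E))
      rw [← hmp.lintegral_comp_emb
        (LinearIsometryEquiv.neg ℝ (E := E)).toHomeomorph.measurableEmbedding]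
      refine lintegral_congr fun x => ?_
      have e1 : (LinearIsometryEquiv.neg ℝ (E := E)) x = -x := rfl
      have e2 : sg (-x) a = sg x a := by
        unfold sg
        rw [inner_neg_right]
        simp
      rw [e1, e2, inner_neg_left]
      simp
    rw [two_mul]
    nth_rewrite 1 [← hneg]
    rw [← lintegral_add_left]
    · refine lintegral_congr_ae ?_
      have h0 : ∀ᵐ x ∂(om E), ¬ (inner ℝ x a = (0 : ℝ)) := by
        rw [ae_iff]
        simpa using level_null hn ha 0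
      filter_upwards [h0] with x hx
      rcases lt_or_gt_of_ne hx with h | h
      · simp [h, not_lt.2 h.le]
      · simp [h, not_lt.2 h.le]
    · exact Measurable.ite (measurableSet_lt hin measurable_const) (hG.comp hsg) measurable_const
  rw [hL, h2, ← mul_assoc, ENNReal.mul_inv_cancel (by norm_num) (by norm_num), one_mul]

end RC
end

section

/-!
# RC DLemma: the disorder `DD` (medium)

`DD_le`: Tonelli and `cv`: `∫_w gain N A w = ∫_w ∫_x φ(x, sg w x) = ∫_x ∫_w φ(x, sg w x) = ∫_x ∫_y φ(x,y) W x y`, where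
`φ(x,y) = 1[x ∉ A, y ∈ A] ofReal (⟪x,N⟫ - ⟪y,N⟫)` (measurable on `E × E`), and for unit vectors `W x y = (‖y - x‖ₑ⁻¹)^(n-2) ≥ (1/2)^(n-2)`, i.e.
`1 ≤ 2^(n-2) * W x y`, since `‖y - x‖ ≤ 2`.
`close`: we may assume `ε < ⊤`. `C = cap N c`; the sets `C \ cap N (c + η)` decrease to `∅` as `η → 0` (along `η = 1/(k+1)`), so some `η > 0` has
`om (C \ cap N (c+η)) ≤ ε/2`. Take `δ = ofReal η * (ε/2) * ε / 2` (positive, finite). If `om (A \ C) > ε` then `om (C \ A) = om (A \ C)` (equal finite measures of `A` and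
`C`), `om (cap N (c+η) \ A) ≥ ε/2`, and for `x ∈ cap N (c+η) \ A`, `y ∈ A \ C`: `⟪x,N⟫ - ⟪y,N⟫ ≥ η`; so `DD N A ≥ ofReal η * (ε/2) * ε > δ`.
-/

set_option autoImplicit false

open MeasureTheory Module
open scoped ENNReal NNReal

namespace RC

variable {E : Type*} [NormedAddCommGroup E] [InnerProductSpace ℝ E] [MeasurableSpace E]
  [BorelSpace E] [FiniteDimensional ℝ E]

theorem DD_le (hn : 2 ≤ finrank ℝ E) (N : E) {A : Set E} (hA : MeasurableSet A) :
    DD N A ≤ 2 ^ (finrank ℝ E - 2) * ∫⁻ w, gain N A w ∂(om E) := by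
  classical
  set n := finrank ℝ E with hn'
  set φ : E → E → ℝ≥0∞ := fun x y =>
    if x ∉ A ∧ y ∈ A then ENNReal.ofReal (inner ℝ x N - inner ℝ y N) else 0 with hφ
  have hφm : Measurable (fun p : E × E => φ p.1 p.2) := by
    simp only [hφ]
    apply Measurable.ite
    · exact (measurable_fst hA.compl).inter (measurable_snd hA)
    · apply Measurable.ennreal_ofReal
      exact ((continuous_fst.inner continuous_const).sub
        (continuous_snd.inner continuous_const)).measurable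
    · exact measurable_const
  have hDD : DD N A = ∫⁻ x, ∫⁻ y, φ x y ∂(om E) ∂(om E) := by
    unfold DD
    simp only [hφ]
  have hgain : ∀ w, gain N A w = ∫⁻ x, φ x (sg w x) ∂(om E) := by
    intro w
    unfold gain
    simp only [hφ]
  have hswap : ∫⁻ w, gain N A w ∂(om E) = ∫⁻ x, ∫⁻ w, φ x (sg w x) ∂(om E) ∂(om E) := by
    simp only [hgain]
    apply lintegral_lintegral_swap
    apply Measurable.aemeasurable
    have h1 : Measurable (fun p : E × E => (p.2, sg p.1 p.2)) :=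
      measurable_snd.prodMk continuous_sg.measurable
    exact hφm.comp h1
  have hcv : ∫⁻ x, ∫⁻ w, φ x (sg w x) ∂(om E) ∂(om E)
      = ∫⁻ x, ∫⁻ y, φ x y * W x y ∂(om E) ∂(om E) := by
    apply lintegral_congr_ae
    filter_upwards [om_norm (E := E)] with x hx
    exact cv hn hx (fun y => φ x y) (hφm.comp (measurable_const.prodMk measurable_id))
  rw [hswap, hcv, hDD, ← lintegral_const_mul' _ _ (ENNReal.pow_ne_top ENNReal.ofNat_ne_top)]
  apply lintegral_mono_ae
  filter_upwards [om_norm (E := E)] with x hx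
  rw [← lintegral_const_mul' _ _ (ENNReal.pow_ne_top ENNReal.ofNat_ne_top)]
  apply lintegral_mono_ae
  filter_upwards [om_norm (E := E)] with y hy
  have h1 : (1 : ℝ≥0∞) ≤ 2 ^ (n - 2) * W x y := by
    have h2 : ‖y - x‖ₑ ≤ 2 := by
      have h3 : ‖y - x‖ ≤ 2 := by
        calc ‖y - x‖ ≤ ‖y‖ + ‖x‖ := norm_sub_le _ _
          _ = 2 := by rw [hx, hy]; norm_num
      rw [← ofReal_norm]
      calc ENNReal.ofReal ‖y - x‖ ≤ ENNReal.ofReal 2 := ENNReal.ofReal_le_ofReal h3
        _ = 2 := by norm_num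
    have h4 : (2 : ℝ≥0∞)⁻¹ ≤ ‖y - x‖ₑ⁻¹ := ENNReal.inv_le_inv.2 h2
    have h5 : ((2 : ℝ≥0∞)⁻¹) ^ (n - 2) ≤ W x y := by
      unfold W
      exact pow_le_pow_left₀ zero_le h4 _
    calc (1 : ℝ≥0∞) = 2 ^ (n - 2) * ((2 : ℝ≥0∞)⁻¹) ^ (n - 2) := by
          rw [← mul_pow, ENNReal.mul_inv_cancel (by norm_num) (by norm_num), one_pow]
      _ ≤ 2 ^ (n - 2) * W x y := mul_le_mul_right h5 _
  calc φ x y = 1 * φ x y := (one_mul _).symm
    _ ≤ (2 ^ (n - 2) * W x y) * φ x y := mul_le_mul_left h1 _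
    _ = 2 ^ (n - 2) * (φ x y * W x y) := by ring

theorem close (N : E) (c : ℝ) {ε : ℝ≥0∞} (hε : 0 < ε) :
    ∃ δ : ℝ≥0∞, 0 < δ ∧ ∀ A : Set E, MeasurableSet A → om E A = om E (cap N c) → DD N A ≤ δ →
      om E (A \ cap N c) ≤ ε := by
  classical
  set e' : ℝ≥0∞ := min ε 1 with he'
  have he0 : e' ≠ 0 := by
    have : 0 < e' := lt_min hε one_pos
    exact this.ne'
  have he1 : e' ≠ ⊤ := ne_top_of_le_ne_top ENNReal.one_ne_top (min_le_right _ _)
  have heε : e' ≤ ε := min_le_left _ _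
  -- choice of `η`
  obtain ⟨k, hk⟩ : ∃ k : ℕ, om E (cap N c \ cap N (c + 1 / ((k : ℝ) + 1))) ≤ e' / 2 := by
    have hanti : Antitone (fun k : ℕ => cap N c \ cap N (c + 1 / ((k : ℝ) + 1))) := by
      intro i j hij
      apply Set.sdiff_subset_sdiff_right
      intro x hx
      have h1 : (1 : ℝ) / ((j : ℝ) + 1) ≤ 1 / ((i : ℝ) + 1) := Nat.one_div_le_one_div hij
      show c + 1 / ((j : ℝ) + 1) < inner ℝ x N
      have hx' : c + 1 / ((i : ℝ) + 1) < inner ℝ x N := hx
      linarith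
    have hmeas : ∀ k : ℕ, NullMeasurableSet (cap N c \ cap N (c + 1 / ((k : ℝ) + 1))) (om E) :=
      fun k => ((measurableSet_cap _ _).diff (measurableSet_cap _ _)).nullMeasurableSet
    have hlim := tendsto_measure_iInter_atTop hmeas hanti ⟨0, measure_ne_top _ _⟩
    have hempty : ⋂ k : ℕ, (cap N c \ cap N (c + 1 / ((k : ℝ) + 1))) = ∅ := by
      ext x
      simp only [Set.mem_iInter, Set.mem_empty_iff_false, iff_false, not_forall]
      by_contra hcon
      push Not at hcon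
      have hx1 : c < inner ℝ x N := (hcon 0).1
      obtain ⟨k, hk⟩ := exists_nat_one_div_lt (sub_pos.2 hx1)
      apply (hcon k).2
      show c + 1 / ((k : ℝ) + 1) < inner ℝ x N
      linarith
    rw [hempty, measure_empty] at hlim
    have hpos : 0 < e' / 2 := ENNReal.half_pos he0
    obtain ⟨k, hk⟩ := ((tendsto_order.1 hlim).2 _ hpos).exists
    exact ⟨k, hk.le⟩
  set η : ℝ := 1 / ((k : ℝ) + 1) with hη
  have hη0 : 0 < η := Nat.one_div_pos_of_nat
  have hM0 : ENNReal.ofReal η * (e' / 2) * e' ≠ 0 := by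
    apply mul_ne_zero (mul_ne_zero _ _) he0
    · exact (ENNReal.ofReal_pos.2 hη0).ne'
    · exact (ENNReal.half_pos he0).ne'
  have hM1 : ENNReal.ofReal η * (e' / 2) * e' ≠ ⊤ := by
    apply ENNReal.mul_ne_top (ENNReal.mul_ne_top ENNReal.ofReal_ne_top _) he1
    exact ne_top_of_le_ne_top he1 ENNReal.half_le_self
  refine ⟨ENNReal.ofReal η * (e' / 2) * e' / 2, ENNReal.half_pos hM0, ?_⟩
  intro A hA hAC hD
  by_contra hcon
  rw [not_le] at hcon
  have h1 : e' ≤ om E (A \ cap N c) := heε.trans hcon.le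
  have hC := measurableSet_cap N c
  have hC' := measurableSet_cap N (c + η)
  have h2 : om E (cap N c \ A) = om E (A \ cap N c) := by
    have h3 : om E (A \ cap N c) + om E (A ∩ cap N c) = om E A := measure_sdiff_add_inter A hC
    have h4 : om E (cap N c \ A) + om E (cap N c ∩ A) = om E (cap N c) :=
      measure_sdiff_add_inter _ hA
    rw [Set.inter_comm] at h4
    rw [← hAC, ← h3] at h4
    exact (ENNReal.add_left_inj (measure_ne_top _ _)).1 h4
  have h5 : e' / 2 ≤ om E (cap N (c + η) \ A) := by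
    have h6 : cap N c \ A ⊆ (cap N c \ cap N (c + η)) ∪ (cap N (c + η) \ A) := by
      intro x hx
      by_cases hx' : x ∈ cap N (c + η)
      · exact Or.inr ⟨hx', hx.2⟩
      · exact Or.inl ⟨hx.1, hx'⟩
    have h7 : e' ≤ e' / 2 + om E (cap N (c + η) \ A) := by
      calc e' ≤ om E (cap N c \ A) := h2 ▸ h1
        _ ≤ _ := measure_mono h6
        _ ≤ om E (cap N c \ cap N (c + η)) + om E (cap N (c + η) \ A) := measure_union_le _ _
        _ ≤ e' / 2 + om E (cap N (c + η) \ A) := by gcongr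
    have h8 : e' / 2 + e' / 2 ≤ e' / 2 + om E (cap N (c + η) \ A) := by
      rw [ENNReal.add_halves]
      exact h7
    exact (ENNReal.add_le_add_iff_left
      (ne_top_of_le_ne_top he1 ENNReal.half_le_self)).1 h8
  have h9 : ENNReal.ofReal η * (e' / 2) * e' ≤ DD N A := by
    calc ENNReal.ofReal η * (e' / 2) * e'
        ≤ ENNReal.ofReal η * om E (cap N (c + η) \ A) * om E (A \ cap N c) := by gcongr
      _ = ∫⁻ _x in cap N (c + η) \ A, ∫⁻ _y in A \ cap N c, ENNReal.ofReal η ∂(om E) ∂(om E) := by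
          rw [lintegral_const, lintegral_const, Measure.restrict_apply MeasurableSet.univ,
            Measure.restrict_apply MeasurableSet.univ, Set.univ_inter, Set.univ_inter]
          ring
      _ ≤ ∫⁻ x in cap N (c + η) \ A, ∫⁻ y, (if x ∉ A ∧ y ∈ A then
            ENNReal.ofReal (inner ℝ x N - inner ℝ y N) else 0) ∂(om E) ∂(om E) := by
          apply setLIntegral_mono' (hC'.diff hA)
          intro x hx
          refine le_trans ?_ (setLIntegral_le_lintegral (A \ cap N c) _)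
          apply setLIntegral_mono' (hA.diff hC)
          intro y hy
          rw [if_pos ⟨hx.2, hy.1⟩]
          apply ENNReal.ofReal_le_ofReal
          have hx' : c + η < inner ℝ x N := hx.1
          have hy' : inner ℝ y N ≤ c := not_lt.1 hy.2
          linarith
      _ ≤ DD N A := by
          unfold DD
          refine le_trans (setLIntegral_le_lintegral _ _) (le_of_eq ?_)
          apply lintegral_congr
          intro x
          apply lintegral_congr
          intro y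
          congr
  have h10 : ENNReal.ofReal η * (e' / 2) * e' / 2 < ENNReal.ofReal η * (e' / 2) * e' :=
    ENNReal.half_lt_self hM0 hM1
  exact absurd (h9.trans hD) (not_le.2 h10)

end RC
end

section

/-!
# RC JMono: polarisation increases `J` (medium)

`num_ineq`: `φ t = ofReal (t - l)` is nondecreasing and convex: from `α' + β' = α + β`, `α ≤ α'`, `β ≤ α'` one gets `φ α + φ β ≤ φ α' + φ β'` and
`φ α ≤ φ α'`; with `V ≤ U`: `φ α U + φ β V ≤ φ α' U + φ β' V` (write `U = V + D` with `D = U - V`; the case `V = ⊤`: then `U = ⊤`, and the claim follows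
from `φ α + φ β ≤ φ α' + φ β'` multiplied by `⊤`; best: `U = V + (U - V)` by `add_tsub_cancel_of_le` holds in all cases, then expand).
`J_eq`: `cv` with `G x = ofReal (kk A r x - l)` (measurable by `measurable_kk`).
`J_pol`: `J_eq` for both sets and `split` for both integrals; on `H` use `num_ineq` with `α = kk A r x`, `β = kk A r (sg w x)`, `α', β'` the same for `pol N w A`
(`kk_pol_add`, `kk_pol_ge`), `U = W N x`, `V = W N (sg w x)`; `V ≤ U` for unit `x ∈ H` because `‖x - N‖² = 2 - 2⟪x,N⟫ ≤ ‖sg w x - N‖²`. On `Z` the two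
functions agree: for `x ∈ Z` (so `⟪x,w⟫⟪w,N⟫ = 0`): if `⟪x,w⟫ = 0` then `sg w x = x` and `kk_pol_add` gives `2 kk (pol N w A) r x = 2 kk A r x`; if `⟪w,N⟫ = 0` then
everything is in `Z` and `pol N w A = A`.
-/

set_option autoImplicit false

open MeasureTheory Module
open scoped ENNReal NNReal

namespace RC

variable {E : Type*} [NormedAddCommGroup E] [InnerProductSpace ℝ E] [MeasurableSpace E]
  [BorelSpace E] [FiniteDimensional ℝ E]

theorem num_ineq (l α β α' β' : ℝ) (h : α' + β' = α + β) (h1 : α ≤ α') (h2 : β ≤ α') (U V : ℝ≥0∞) (hUV : V ≤ U) :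
    ENNReal.ofReal (α - l) * U + ENNReal.ofReal (β - l) * V ≤
      ENNReal.ofReal (α' - l) * U + ENNReal.ofReal (β' - l) * V := by
  have hmax : ∀ t : ℝ, ENNReal.ofReal t = ENNReal.ofReal (max t 0) := by
    intro t
    rcases le_total t 0 with h | h
    · rw [max_eq_right h, ENNReal.ofReal_of_nonpos h, ENNReal.ofReal_zero]
    · rw [max_eq_left h]
  have hsum : ENNReal.ofReal (α - l) + ENNReal.ofReal (β - l) ≤
      ENNReal.ofReal (α' - l) + ENNReal.ofReal (β' - l) := by
    rw [hmax (α - l), hmax (β - l), hmax (α' - l), hmax (β' - l),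
      ← ENNReal.ofReal_add (le_max_right _ _) (le_max_right _ _),
      ← ENNReal.ofReal_add (le_max_right _ _) (le_max_right _ _)]
    apply ENNReal.ofReal_le_ofReal
    rcases max_cases (α - l) 0 with ⟨e1, g1⟩ | ⟨e1, g1⟩ <;>
    rcases max_cases (β - l) 0 with ⟨e2, g2⟩ | ⟨e2, g2⟩ <;>
    rcases max_cases (α' - l) 0 with ⟨e3, g3⟩ | ⟨e3, g3⟩ <;>
    rcases max_cases (β' - l) 0 with ⟨e4, g4⟩ | ⟨e4, g4⟩ <;>
    rw [e1, e2, e3, e4] <;> linarith
  have hmono : ENNReal.ofReal (α - l) ≤ ENNReal.ofReal (α' - l) :=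
    ENNReal.ofReal_le_ofReal (by linarith)
  obtain ⟨D, rfl⟩ : ∃ D, U = V + D := ⟨U - V, (add_tsub_cancel_of_le hUV).symm⟩
  calc ENNReal.ofReal (α - l) * (V + D) + ENNReal.ofReal (β - l) * V
      = (ENNReal.ofReal (α - l) + ENNReal.ofReal (β - l)) * V + ENNReal.ofReal (α - l) * D := by
        ring
    _ ≤ (ENNReal.ofReal (α' - l) + ENNReal.ofReal (β' - l)) * V + ENNReal.ofReal (α' - l) * D := by
        gcongr
    _ = ENNReal.ofReal (α' - l) * (V + D) + ENNReal.ofReal (β' - l) * V := by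
        ring

theorem J_eq (hn : 2 ≤ finrank ℝ E) {N : E} (hN : ‖N‖ = 1) {A : Set E} (hA : MeasurableSet A) (l r : ℝ) :
    J l r N A = ∫⁻ x, ENNReal.ofReal (kk A r x - l) * W N x ∂(om E) := by
  unfold J
  exact cv hn hN (fun x => ENNReal.ofReal (kk A r x - l))
    ((measurable_kk hA r).sub_const l).ennreal_ofReal

private theorem inner_sg_left (w x N : E) :
    inner ℝ (sg w x) N = inner ℝ x N - 2 * inner ℝ x w * inner ℝ w N := by
  unfold sg
  rw [inner_sub_left, real_inner_smul_left]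

private theorem measurable_W (N : E) : Measurable (W N) := by
  unfold W
  fun_prop

theorem J_pol (hn : 2 ≤ finrank ℝ E) {N w : E} (hN : ‖N‖ = 1) (hw : ‖w‖ = 1) {A : Set E} (hA : MeasurableSet A)
    (l r : ℝ) : J l r N A ≤ J l r N (pol N w A) := by
  have hpA := measurableSet_pol N hw hA
  rw [J_eq hn hN hA, J_eq hn hN hpA]
  have hm1 : Measurable (fun x => ENNReal.ofReal (kk A r x - l) * W N x) :=
    ((measurable_kk hA r).sub_const l).ennreal_ofReal.mul (measurable_W N)
  have hm2 : Measurable (fun x => ENNReal.ofReal (kk (pol N w A) r x - l) * W N x) :=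
    ((measurable_kk hpA r).sub_const l).ennreal_ofReal.mul (measurable_W N)
  rw [split N hw _ hm1, split N hw _ hm2]
  refine add_le_add ?_ ?_
  · refine setLIntegral_mono' (measurableSet_H N hw) ?_
    intro x hx
    have hx' : inner ℝ (sg w x) N < inner ℝ x N := hx
    have hadd := kk_pol_add N hw hA r x
    have hge := kk_pol_ge (N := N) hw hA r hx'
    refine num_ineq l _ _ _ _ hadd hge.1 hge.2 _ _ ?_
    have hn1 : ‖x - N‖ ≤ ‖sg w x - N‖ := by
      have h1 : ‖x - N‖ ^ 2 ≤ ‖sg w x - N‖ ^ 2 := by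
        rw [norm_sub_sq_real, norm_sub_sq_real, norm_sg hw]
        linarith
      exact le_of_sq_le_sq h1 (norm_nonneg _)
    unfold W
    gcongr
    rw [enorm_le_iff_norm_le]
    exact hn1
  · refine le_of_eq (setLIntegral_congr_fun (measurableSet_Z N hw) ?_)
    intro x hx
    have hx' : inner ℝ (sg w x) N = inner ℝ x N := hx
    have hk : kk (pol N w A) r x = kk A r x := by
      rw [inner_sg_left] at hx'
      have h0 : inner ℝ x w * inner ℝ w N = 0 := by linarith
      rcases mul_eq_zero.1 h0 with h | h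
      · have hs : sg w x = x := by
          unfold sg
          rw [h]
          simp
        have hadd := kk_pol_add N hw hA r x
        rw [hs] at hadd
        linarith
      · have hpol : pol N w A = A := by
          ext y
          have hy : inner ℝ (sg w y) N = inner ℝ y N := by
            rw [inner_sg_left, h]
            ring
          simp only [pol, Set.mem_ofPred_eq, hy, lt_irrefl, false_and, true_and, false_or]
          tauto
        rw [hpol]
    simp only [hk]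

end RC
end

section

/-!
# RC BT: the Baernstein-Taylor type inequality (medium)

`J_close`: `kk A r x ≤ kk C r x + om.real (A \ C)`, so `ofReal (kk A r x - l) ≤ ofReal (kk C r x - l) + om (A \ C)`; integrate.
`BT`: let `C = cap N c`, `K` = the class of all measurable `A'` with `om A' = om A` and `J l r N A ≤ J l r N A'`. For `A' ∈ K` and `‖w‖ = 1` also `pol N w A' ∈ K`
(`om_pol`, `J_pol`). `Vp N A' ≤ 2 om univ < ⊤` a.e. bound; let `s` be the supremum of `Vp N A'` over `K` (a finite number). Let `ε > 0` (finite), `δ` from `close`,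
`δ' > 0` with `2^(n-2) * δ' * om univ ≤ δ`; choose `A' ∈ K` with `s ≤ Vp N A' + δ'`. By `Vp_pol` `gain N A' w ≤ δ'` for all unit `w` (a.e. `w`), so by `DD_le`
`DD N A' ≤ 2^(n-2) * δ' * om univ ≤ δ`, `om (A' \ C) ≤ ε` and `J l r N A ≤ J l r N A' ≤ J l r N C + ε * om univ`. Let `ε → 0`
(`ENNReal.le_of_forall_pos_le_add` or similar; `om univ < ⊤`).
-/

set_option autoImplicit false

open MeasureTheory Module
open scoped ENNReal NNReal

namespace RC

variable {E : Type*} [NormedAddCommGroup E] [InnerProductSpace ℝ E] [MeasurableSpace E]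
  [BorelSpace E] [FiniteDimensional ℝ E]

theorem J_close (l r : ℝ) (N : E) {A C : Set E} (hA : MeasurableSet A) (hC : MeasurableSet C) :
    J l r N A ≤ J l r N C + om E (A \ C) * om E Set.univ := by
  unfold J
  have hpt : ∀ u, ENNReal.ofReal (kk A r (sg u N) - l) ≤
      ENNReal.ofReal (kk C r (sg u N) - l) + om E (A \ C) := by
    intro u
    have h1 : kk A r (sg u N) ≤ kk C r (sg u N) + (om E).real (A \ C) := by
      unfold kk
      calc (om E).real (A ∩ cap (sg u N) r)
          ≤ (om E).real ((C ∩ cap (sg u N) r) ∪ (A \ C)) := by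
            refine measureReal_mono ?_ (measure_ne_top _ _)
            rintro x ⟨hxA, hxc⟩
            by_cases hxC : x ∈ C
            · exact Or.inl ⟨hxC, hxc⟩
            · exact Or.inr ⟨hxA, hxC⟩
        _ ≤ _ := measureReal_union_le _ _
    calc ENNReal.ofReal (kk A r (sg u N) - l)
        ≤ ENNReal.ofReal ((kk C r (sg u N) - l) + (om E).real (A \ C)) :=
          ENNReal.ofReal_le_ofReal (by linarith)
      _ ≤ ENNReal.ofReal (kk C r (sg u N) - l) + ENNReal.ofReal ((om E).real (A \ C)) :=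
          ENNReal.ofReal_add_le
      _ = _ := by rw [ofReal_measureReal]
  calc _ ≤ ∫⁻ u, (ENNReal.ofReal (kk C r (sg u N) - l) + om E (A \ C)) ∂(om E) :=
        lintegral_mono hpt
    _ = _ := by rw [lintegral_add_right _ measurable_const, lintegral_const]

theorem Vp_le {N : E} (hN : ‖N‖ = 1) (A : Set E) : Vp N A ≤ 2 * om E Set.univ := by
  unfold Vp
  calc ∫⁻ x in A, ENNReal.ofReal (1 + inner ℝ x N) ∂(om E)
      ≤ ∫⁻ x, ENNReal.ofReal (1 + inner ℝ x N) ∂(om E) := setLIntegral_le_lintegral _ _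
    _ ≤ ∫⁻ x, 2 ∂(om E) := by
        apply lintegral_mono_ae
        filter_upwards [om_norm] with x hx
        have h1 : inner ℝ x N ≤ ‖x‖ * ‖N‖ := real_inner_le_norm x N
        rw [hx, hN] at h1
        calc ENNReal.ofReal (1 + inner ℝ x N) ≤ ENNReal.ofReal 2 :=
              ENNReal.ofReal_le_ofReal (by linarith)
          _ = 2 := by norm_num
    _ = _ := by rw [lintegral_const]

theorem BT (hn : 2 ≤ finrank ℝ E) {N : E} (hN : ‖N‖ = 1) {A : Set E} (hA : MeasurableSet A) {c : ℝ}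
    (hc : om E A = om E (cap N c)) (l r : ℝ) : J l r N A ≤ J l r N (cap N c) := by
  classical
  let K : Set (Set E) := {A' | MeasurableSet A' ∧ om E A' = om E A ∧ J l r N A ≤ J l r N A'}
  have hAK : A ∈ K := ⟨hA, rfl, le_refl _⟩
  have hpolK : ∀ A' ∈ K, ∀ w : E, ‖w‖ = 1 → pol N w A' ∈ K := by
    intro A' hA' w hw
    exact ⟨measurableSet_pol N hw hA'.1, (om_pol N hw hA'.1).trans hA'.2.1,
      hA'.2.2.trans (J_pol hn hN hw hA'.1 l r)⟩
  set s : ℝ≥0∞ := ⨆ A' ∈ K, Vp N A' with hs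
  have hM : om E (Set.univ : Set E) < ⊤ := measure_lt_top _ _
  have hstop : s ≤ 2 * om E Set.univ := iSup₂_le (fun A' _ => Vp_le hN A')
  have hs' : s < ⊤ := lt_of_le_of_lt hstop (ENNReal.mul_lt_top (by norm_num) hM)
  have hle : ∀ A' ∈ K, Vp N A' ≤ s := fun A' hA' => le_iSup₂ (f := fun A' (_ : A' ∈ K) => Vp N A') A' hA'
  have hex : ∀ δ : ℝ≥0∞, 0 < δ → ∃ A' ∈ K, s ≤ Vp N A' + δ := by
    intro δ hδ
    by_cases hδt' : δ = ⊤
    · exact ⟨A, hAK, by rw [hδt']; simp⟩
    have hδt : δ ≠ ⊤ := hδt'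
    by_contra hcon
    push Not at hcon
    have h1 : s ≤ s - δ := by
      apply iSup₂_le
      intro A' hA'
      exact ENNReal.le_sub_of_add_le_right hδt (hcon A' hA').le
    have h2 : s ≠ 0 := by
      intro h0
      have := hcon A hAK
      rw [h0] at this
      exact absurd this not_lt_zero
    have h3 : s - δ < s := ENNReal.sub_lt_self hs'.ne h2 hδ.ne'
    exact absurd h1 (not_le.2 h3)
  apply ENNReal.le_of_forall_pos_le_add
  intro ε₀ hε₀ _
  set ε : ℝ≥0∞ := (ε₀ : ℝ≥0∞) / (om E Set.univ + 1) with hε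
  have hM1 : om E (Set.univ : Set E) + 1 ≠ ⊤ := (ENNReal.add_lt_top.2 ⟨hM, by norm_num⟩).ne
  have hεpos : 0 < ε := ENNReal.div_pos (by simpa using hε₀.ne') hM1
  obtain ⟨δ, hδ, hδA⟩ := close N c hεpos
  set Q : ℝ≥0∞ := 2 ^ (finrank ℝ E - 2) * om E Set.univ with hQ
  have hQt : Q < ⊤ := ENNReal.mul_lt_top (ENNReal.pow_lt_top (by norm_num)) hM
  have hQ1 : Q + 1 ≠ ⊤ := (ENNReal.add_lt_top.2 ⟨hQt, by norm_num⟩).ne
  have hδ' : 0 < δ / (Q + 1) := ENNReal.div_pos hδ.ne' hQ1
  obtain ⟨A', hA'K, hA's⟩ := hex _ hδ'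
  have hVt : Vp N A' ≠ ⊤ := (lt_of_le_of_lt (hle A' hA'K) hs').ne
  have hgain : ∀ w : E, ‖w‖ = 1 → gain N A' w ≤ δ / (Q + 1) := by
    intro w hw
    have h1 := hle _ (hpolK A' hA'K w hw)
    rw [Vp_pol hN hw hA'K.1] at h1
    exact (ENNReal.add_le_add_iff_left hVt).1 (h1.trans hA's)
  have hDD : DD N A' ≤ δ := by
    calc DD N A' ≤ 2 ^ (finrank ℝ E - 2) * ∫⁻ w, gain N A' w ∂(om E) := DD_le hn N hA'K.1
      _ ≤ 2 ^ (finrank ℝ E - 2) * ∫⁻ w, δ / (Q + 1) ∂(om E) := by
          gcongr 2 ^ (finrank ℝ E - 2) * ?_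
          apply lintegral_mono_ae
          filter_upwards [om_norm] with w hw
          exact hgain w hw
      _ = Q * (δ / (Q + 1)) := by rw [lintegral_const, hQ]; ring
      _ ≤ (Q + 1) * (δ / (Q + 1)) := by gcongr; exact le_self_add
      _ ≤ δ := ENNReal.mul_div_le
  have hcl := hδA A' hA'K.1 (hA'K.2.1.trans hc) hDD
  calc J l r N A ≤ J l r N A' := hA'K.2.2
    _ ≤ J l r N (cap N c) + om E (A' \ cap N c) * om E Set.univ :=
        J_close l r N hA'K.1 (measurableSet_cap N c)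
    _ ≤ J l r N (cap N c) + ε₀ := by
        gcongr
        calc om E (A' \ cap N c) * om E Set.univ ≤ ε * (om E Set.univ + 1) := by
              gcongr
              exact le_self_add
          _ = (om E Set.univ + 1) * ((ε₀ : ℝ≥0∞) / (om E Set.univ + 1)) := by rw [hε]; ring
          _ ≤ ε₀ := ENNReal.mul_div_le

end RC
end

section

/-!
# RC SetIneq: the inequality for sets (medium)

For unit `u`: `convS A (cap N r) u = om (A ∩ {y | r < ⟪sg u y, N⟫}) = om (A ∩ cap (sg u N) r) = ofReal (kk A r (sg u N))` (`inner_sg`) : `convS_cap`.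
`set_ineq_N` (`a = N`): for every real `l ≥ 0`:
`∫_U ofReal (kk A r (sg u N)) ≤ J l r N A + ofReal l * om U` and, by `BT`, `J l r N A ≤ J l r N C`, `C = cap N c`. It remains to choose `l` with
`J l r N C + ofReal l * om (band N b) ≤ ∫_{band N b} ofReal (kk C r (sg u N))` (`om U = om (band N b)`). By `kk_mono_cap`, `kk C r (sg u N)` is a nonincreasing
function of `|⟪u,N⟫|` for unit `u`, as `⟪sg u N, N⟫ = 1 - 2⟪u,N⟫²`. Cases: `b ≤ 0`: `band N b = ∅`, `om U = 0`, trivial. `1 < b`: `l = 0`, almost every `u`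
(`‖u‖ = 1`) lies in `band N b`. `0 < b ≤ 1`: take a unit vector `u₀` with `⟪u₀,N⟫ = b` (it exists in dimension at least 2: `b N + √(1-b²) e` with a unit vector `e ⟂ N`)
and `l = kk C r (sg u₀ N)`: on `band N b` `kk C r (sg u N) ≥ l`, off the band `≤ l`, so `∫ ofReal (kk - l) + l * om (band) = ∫_{band} (kk - l) + l * om (band) = ∫_{band} kk`.
`set_ineq` (general `a`): an isometry `L` with `L a = N` (`exists_isometry`, `sg_swap`, or the identity if `a = N`); `isometry_sg`: for `A' = L '' A` (= preimage under `L.symm`),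
`U' = L '' U`: `convS A (cap a r) u = convS A' (cap N r) (L u)`, `∫_U … = ∫_{U'} …` (`om_isometry`), `om A' = om A`, `om U' = om U`.
-/

set_option autoImplicit false

open MeasureTheory Module
open scoped ENNReal NNReal

namespace RC

variable {E : Type*} [NormedAddCommGroup E] [InnerProductSpace ℝ E] [MeasurableSpace E]
  [BorelSpace E] [FiniteDimensional ℝ E]

theorem convS_cap {A : Set E} (N : E) (r : ℝ) {u : E} (hu : ‖u‖ = 1) :
    convS A (cap N r) u = ENNReal.ofReal (kk A r (sg u N)) := by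
  unfold convS kk
  rw [ofReal_measureReal]
  congr 2
  ext y
  show r < inner ℝ (sg u y) N ↔ r < inner ℝ y (sg u N)
  rw [inner_sg hu]

theorem exists_unit (hn : 2 ≤ finrank ℝ E) {N : E} (hN : ‖N‖ = 1) {b : ℝ} (hb : |b| ≤ 1) :
    ∃ u : E, ‖u‖ = 1 ∧ inner ℝ u N = b := by
  have hne : (ℝ ∙ N)ᗮ ≠ ⊥ := by
    intro h
    rw [Submodule.orthogonal_eq_bot_iff] at h
    have hN0 : N ≠ 0 := by
      intro h0
      rw [h0, norm_zero] at hN
      exact zero_ne_one hN
    have h1 : finrank ℝ (ℝ ∙ N) = 1 := finrank_span_singleton hN0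
    rw [h, finrank_top] at h1
    omega
  obtain ⟨v, hv, hv0⟩ := Submodule.exists_mem_ne_zero_of_ne_bot hne
  rw [Submodule.mem_orthogonal_singleton_iff_inner_left] at hv
  have hvn : ‖v‖ ≠ 0 := norm_ne_zero_iff.2 hv0
  set e : E := ‖v‖⁻¹ • v with he
  have hen : ‖e‖ = 1 := by
    rw [he, norm_smul, norm_inv, norm_norm, inv_mul_cancel₀ hvn]
  have heN : inner ℝ e N = 0 := by
    rw [he, real_inner_smul_left, hv, mul_zero]
  have hb2 : 0 ≤ 1 - b ^ 2 := by
    have := (sq_le_one_iff_abs_le_one b).2 hb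
    linarith
  refine ⟨b • N + Real.sqrt (1 - b ^ 2) • e, ?_, ?_⟩
  · have h1 : ‖b • N + Real.sqrt (1 - b ^ 2) • e‖ ^ 2 = 1 := by
      rw [norm_add_sq_real, norm_smul, norm_smul, hN, hen, real_inner_smul_left,
        real_inner_smul_right, real_inner_comm, heN, mul_one, mul_one, Real.norm_eq_abs,
        Real.norm_eq_abs, sq_abs, sq_abs, Real.sq_sqrt hb2]
      ring
    have h2 : 0 ≤ ‖b • N + Real.sqrt (1 - b ^ 2) • e‖ := norm_nonneg _
    nlinarith [h1, h2]
  · rw [inner_add_left, real_inner_smul_left, real_inner_smul_left, heN, mul_zero, add_zero,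
      real_inner_self_eq_norm_sq, hN]
    ring

theorem set_ineq_N (hn : 2 ≤ finrank ℝ E) {N : E} (hN : ‖N‖ = 1) {A U : Set E} (hA : MeasurableSet A)
    (hU : MeasurableSet U) {b c r : ℝ} (hAc : om E A = om E (cap N c)) (hUb : om E U = om E (band N b)) :
    ∫⁻ u in U, convS A (cap N r) u ∂(om E) ≤ ∫⁻ u in band N b, convS (cap N c) (cap N r) u ∂(om E) := by
  set C : Set E := cap N c with hC
  have hband : MeasurableSet (band N b) := measurableSet_band N b
  -- the inner product of `sg u N` with `N`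
  have hinner : ∀ u : E, inner ℝ (sg u N) N = 1 - 2 * (inner ℝ u N) ^ 2 := by
    intro u
    unfold sg
    rw [inner_sub_left, real_inner_smul_left, real_inner_self_eq_norm_sq, hN,
      real_inner_comm N u]
    ring
  have hmono : ∀ u v : E, ‖u‖ = 1 → ‖v‖ = 1 → |inner ℝ v N| ≤ |inner ℝ u N| →
      kk C r (sg u N) ≤ kk C r (sg v N) := by
    intro u v hu hv h
    refine kk_mono_cap N c r ?_ ?_ ?_
    · rw [norm_sg hu, hN]
    · rw [norm_sg hv, hN]
    · rw [hinner, hinner]
      have := sq_le_sq.2 h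
      linarith
  -- the level
  obtain ⟨l, hl0, hl1, hl2⟩ : ∃ l : ℝ, 0 ≤ l ∧
      (∀ u : E, ‖u‖ = 1 → u ∈ band N b → l ≤ kk C r (sg u N)) ∧
      (∀ u : E, ‖u‖ = 1 → u ∉ band N b → kk C r (sg u N) ≤ l) := by
    by_cases hb : b ≤ 1
    · have hb' : |max b 0| ≤ 1 := by
        rw [abs_of_nonneg (le_max_right _ _)]
        exact max_le hb zero_le_one
      obtain ⟨u₀, hu₀, hu₀N⟩ := exists_unit hn hN hb'
      have habs : |inner ℝ u₀ N| = max b 0 := by
        rw [hu₀N, abs_of_nonneg (le_max_right _ _)]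
      refine ⟨kk C r (sg u₀ N), measureReal_nonneg, ?_, ?_⟩
      · intro u hu hub
        refine hmono u₀ u hu₀ hu ?_
        rw [habs]
        exact (le_of_lt hub).trans (le_max_left _ _)
      · intro u hu hub
        refine hmono u u₀ hu hu₀ ?_
        rw [habs]
        exact max_le (not_lt.1 hub) (abs_nonneg _)
    · refine ⟨0, le_rfl, fun u _ _ => measureReal_nonneg, ?_⟩
      intro u hu hub
      exfalso
      apply hub
      show |inner ℝ u N| < b
      have h1 : |inner ℝ u N| ≤ ‖u‖ * ‖N‖ := abs_real_inner_le_norm u N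
      rw [hu, hN, mul_one] at h1
      exact lt_of_le_of_lt h1 (not_le.1 hb)
  -- the left side
  have hleft : ∫⁻ u in U, convS A (cap N r) u ∂(om E) =
      ∫⁻ u in U, ENNReal.ofReal (kk A r (sg u N)) ∂(om E) := by
    refine lintegral_congr_ae (ae_restrict_of_ae ?_)
    filter_upwards [om_norm (E := E)] with u hu
    exact convS_cap N r hu
  have hright : ∫⁻ u in band N b, convS C (cap N r) u ∂(om E) =
      ∫⁻ u in band N b, ENNReal.ofReal (kk C r (sg u N)) ∂(om E) := by
    refine lintegral_congr_ae (ae_restrict_of_ae ?_)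
    filter_upwards [om_norm (E := E)] with u hu
    exact convS_cap N r hu
  have h1 : ∫⁻ u in U, ENNReal.ofReal (kk A r (sg u N)) ∂(om E) ≤
      J l r N A + ENNReal.ofReal l * om E U := by
    calc ∫⁻ u in U, ENNReal.ofReal (kk A r (sg u N)) ∂(om E)
        ≤ ∫⁻ u in U, (ENNReal.ofReal (kk A r (sg u N) - l) + ENNReal.ofReal l) ∂(om E) := by
          refine lintegral_mono fun u => ?_
          have := ENNReal.ofReal_add_le (p := kk A r (sg u N) - l) (q := l)
          rwa [sub_add_cancel] at this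
      _ = ∫⁻ u in U, ENNReal.ofReal (kk A r (sg u N) - l) ∂(om E) +
          ∫⁻ _ in U, ENNReal.ofReal l ∂(om E) := lintegral_add_right _ measurable_const
      _ ≤ J l r N A + ENNReal.ofReal l * om E U := by
          rw [setLIntegral_const]
          exact add_le_add (setLIntegral_le_lintegral _ _) le_rfl
  have h2 : J l r N C = ∫⁻ u in band N b, ENNReal.ofReal (kk C r (sg u N) - l) ∂(om E) := by
    unfold J
    rw [← lintegral_add_compl _ hband]
    have h3 : ∫⁻ u in (band N b)ᶜ, ENNReal.ofReal (kk C r (sg u N) - l) ∂(om E) = 0 := by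
      rw [setLIntegral_congr_fun_ae (g := fun _ => 0) hband.compl]
      · simp
      · filter_upwards [om_norm (E := E)] with u hu hub
        exact ENNReal.ofReal_of_nonpos (sub_nonpos.2 (hl2 u hu hub))
    rw [h3, add_zero]
  have h4 : J l r N C + ENNReal.ofReal l * om E (band N b) =
      ∫⁻ u in band N b, ENNReal.ofReal (kk C r (sg u N)) ∂(om E) := by
    rw [h2, ← setLIntegral_const, ← lintegral_add_right _ measurable_const]
    refine setLIntegral_congr_fun_ae hband ?_
    filter_upwards [om_norm (E := E)] with u hu hub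
    rw [← ENNReal.ofReal_add (sub_nonneg.2 (hl1 u hu hub)) hl0, sub_add_cancel]
  calc ∫⁻ u in U, convS A (cap N r) u ∂(om E)
      = ∫⁻ u in U, ENNReal.ofReal (kk A r (sg u N)) ∂(om E) := hleft
    _ ≤ J l r N A + ENNReal.ofReal l * om E U := h1
    _ ≤ J l r N C + ENNReal.ofReal l * om E U := add_le_add (BT hn hN hA hAc l r) le_rfl
    _ = J l r N C + ENNReal.ofReal l * om E (band N b) := by rw [hUb]
    _ = ∫⁻ u in band N b, ENNReal.ofReal (kk C r (sg u N)) ∂(om E) := h4
    _ = ∫⁻ u in band N b, convS C (cap N r) u ∂(om E) := hright.symm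

theorem set_ineq (hn : 2 ≤ finrank ℝ E) {a N : E} (ha : ‖a‖ = 1) (hN : ‖N‖ = 1) {A U : Set E} (hA : MeasurableSet A)
    (hU : MeasurableSet U) {b c r : ℝ} (hAc : om E A = om E (cap N c)) (hUb : om E U = om E (band N b)) :
    ∫⁻ u in U, convS A (cap a r) u ∂(om E) ≤ ∫⁻ u in band N b, convS (cap N c) (cap N r) u ∂(om E) := by
  by_cases haN : a = N
  · rw [haN]
    exact set_ineq_N hn hN hA hU hAc hUb
  obtain ⟨hw, hswap⟩ := sg_swap (ha.trans hN.symm) haN
  obtain ⟨L, hL⟩ := exists_isometry hw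
  have hLa : L a = N := by rw [hL, hswap]
  have hmp := om_isometry L.symm
  have hmeas : Measurable (L.symm : E → E) := L.symm.continuous.measurable
  have hemb : MeasurableEmbedding (L.symm : E → E) :=
    L.symm.toHomeomorph.measurableEmbedding
  set A' : Set E := L.symm ⁻¹' A with hA'
  set U' : Set E := L.symm ⁻¹' U with hU'
  have hA'm : MeasurableSet A' := hmeas hA
  have hU'm : MeasurableSet U' := hmeas hU
  have hA'c : om E A' = om E (cap N c) := by
    rw [hA', hmp.measure_preimage hA.nullMeasurableSet, hAc]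
  have hU'b : om E U' = om E (band N b) := by
    rw [hU', hmp.measure_preimage hU.nullMeasurableSet, hUb]
  have hconv : ∀ u' : E, convS A' (cap N r) u' = convS A (cap a r) (L.symm u') := by
    intro u'
    unfold convS
    have hset : A' ∩ {y | sg u' y ∈ cap N r} =
        L.symm ⁻¹' (A ∩ {y | sg (L.symm u') y ∈ cap a r}) := by
      ext y
      simp only [hA', Set.mem_inter_iff, Set.mem_preimage, Set.mem_ofPred_eq]
      have h1 : sg (L.symm u') (L.symm y) = L.symm (sg u' y) := (isometry_sg L.symm u' y).symm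
      rw [h1]
      have h2 : (inner ℝ (L.symm (sg u' y)) a : ℝ) = inner ℝ (sg u' y) N := by
        rw [← hLa, ← L.inner_map_map (L.symm (sg u' y)) a, L.apply_symm_apply]
      show _ ∧ r < _ ↔ _ ∧ r < _
      rw [h2]
    have hmeasS : MeasurableSet (A ∩ {y | sg (L.symm u') y ∈ cap a r}) := by
      refine hA.inter ?_
      have hc : Continuous (fun y : E => sg (L.symm u') y) :=
        continuous_sg.comp (continuous_const.prodMk continuous_id)
      exact hc.measurable (measurableSet_cap a r)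
    rw [hset, hmp.measure_preimage hmeasS.nullMeasurableSet]
  have hint : ∫⁻ u in U, convS A (cap a r) u ∂(om E) =
      ∫⁻ u' in U', convS A' (cap N r) u' ∂(om E) := by
    rw [← hmp.setLIntegral_comp_preimage_emb hemb (fun u => convS A (cap a r) u) U]
    refine lintegral_congr fun u' => ?_
    exact (hconv u').symm
  rw [hint]
  exact set_ineq_N hn hN hA'm hU'm hA'c hU'b

end RC
end
end

section

section

/-!
# RC Phi: from truncations to convex functions (medium)

Write `Ψ τ = ⨆ (s : ℝ≥0) (_ : s ≤ τ), ofReal (Φ s - Φ 0)` for `τ : ℝ≥0∞`. For `δ > 0` let `m k = (Φ ((k+1)δ) - Φ (kδ))/δ` (nonnegative and nondecreasing in `k : ℕ`),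
`c 0 = m 0`, `c k = m k - m (k-1) ≥ 0`, and `Uδ τ = ∑' k, ofReal (c k) * (τ - (k+1)δ)` (`ENNReal`, truncated subtraction).
For finite `τ = t ≥ δ` the finite sum `∑ k, c k * max (t - δ - kδ) 0` is the value at `t - δ` of the piecewise linear interpolation of `Φ - Φ 0` at the multiples of `δ`
(`interp`, induction on the interval), which lies between `Φ (t - δ) - Φ 0` and `Φ t - Φ 0`. So `Uδ τ ≤ Ψ τ`, and `Ψ τ ≤ liminf_{δ → 0} Uδ τ` because `Φ` is continuous on
`(0,∞)` (and `Ψ 0 = 0`; for `τ = ⊤`: if all `c k = 0` then `Φ` is constant; do `δ = 1/(j+1)`; otherwise `Uδ ⊤ = ⊤` for all small `δ`, or use monotonicity in `τ`: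
`Uδ ⊤ ≥ Uδ t` for all `t`).
By the hypothesis and `lintegral_tsum` `∫ Uδ (F) ≤ ∫ Uδ (F') ≤ ∫ Ψ (F')`, and Fatou (`lintegral_liminf_le`) gives `∫ Ψ (F) ≤ liminf ∫ Uδ (F)`.
-/

set_option autoImplicit false

open MeasureTheory Module
open scoped ENNReal NNReal

namespace RC

/-- slopes -/
noncomputable def phm (Φ : ℝ → ℝ) (δ : ℝ) (k : ℕ) : ℝ := (Φ ((k + 1) * δ) - Φ (k * δ)) / δ

/-- second differences -/
noncomputable def phc (Φ : ℝ → ℝ) (δ : ℝ) (k : ℕ) : ℝ :=
  if k = 0 then phm Φ δ 0 else phm Φ δ k - phm Φ δ (k - 1)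

/-- the approximating sum of truncations -/
noncomputable def phU (Φ : ℝ → ℝ) (δ : ℝ) (τ : ℝ≥0∞) : ℝ≥0∞ :=
  ∑' k : ℕ, ENNReal.ofReal (phc Φ δ k) * (τ - ENNReal.ofReal ((k + 1) * δ))

theorem phc_nonneg {Φ : ℝ → ℝ} (hc : ConvexOn ℝ (Set.Ici 0) Φ) (hm : MonotoneOn Φ (Set.Ici 0)) {δ : ℝ}
    (hδ : 0 < δ) (k : ℕ) : 0 ≤ phc Φ δ k := by
  unfold phc
  split_ifs with hk
  · unfold phm
    apply div_nonneg _ hδ.le
    have := hm (a := ((0:ℕ):ℝ) * δ) (b := (((0:ℕ):ℝ) + 1) * δ) (by simp)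
      (by simp; exact hδ.le) (by simp; exact hδ.le)
    linarith
  · obtain ⟨j, rfl⟩ : ∃ j, k = j + 1 := ⟨k - 1, by omega⟩
    have hj : (j + 1 - 1 : ℕ) = j := by omega
    rw [hj]
    unfold phm
    have hj0 : (0:ℝ) ≤ j := Nat.cast_nonneg j
    have e1 : (0:ℝ) ≤ (j:ℝ) * δ := by positivity
    have e3 : (0:ℝ) ≤ (((j+1:ℕ):ℝ) + 1) * δ := by positivity
    have key := hc.slope_mono_adjacent (x := (j:ℝ) * δ) (y := ((j:ℝ) + 1) * δ)
      (z := (((j+1:ℕ):ℝ) + 1) * δ) e1 e3 (by nlinarith) (by push_cast; nlinarith)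
    have d1 : ((j:ℝ) + 1) * δ - (j:ℝ) * δ = δ := by ring
    have d2 : (((j+1:ℕ):ℝ) + 1) * δ - ((j:ℝ) + 1) * δ = δ := by push_cast; ring
    rw [d1, d2] at key
    have e : ((j+1:ℕ):ℝ) * δ = ((j:ℝ) + 1) * δ := by push_cast; ring
    rw [e]
    linarith

theorem sum_phc (Φ : ℝ → ℝ) (δ : ℝ) (j : ℕ) :
    ∑ k ∈ Finset.range (j + 1), phc Φ δ k = phm Φ δ j := by
  induction j with
  | zero => simp [phc]
  | succ j ih =>
    rw [Finset.sum_range_succ, ih]
    simp [phc]

theorem sum_node (Φ : ℝ → ℝ) {δ : ℝ} (hδ : 0 < δ) (j : ℕ) :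
    ∑ k ∈ Finset.range j, phc Φ δ k * (((j:ℝ) + 1) * δ - ((k:ℝ) + 1) * δ) = Φ (j * δ) - Φ 0 := by
  induction j with
  | zero => simp
  | succ j ih =>
    have h1 : ∑ k ∈ Finset.range (j + 1), phc Φ δ k * ((((j+1:ℕ):ℝ) + 1) * δ - ((k:ℝ) + 1) * δ) =
        ∑ k ∈ Finset.range (j + 1), phc Φ δ k * (((j:ℝ) + 1) * δ - ((k:ℝ) + 1) * δ) +
          δ * ∑ k ∈ Finset.range (j + 1), phc Φ δ k := by
      rw [Finset.mul_sum, ← Finset.sum_add_distrib]
      apply Finset.sum_congr rfl
      intro k _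
      push_cast
      ring
    rw [h1, sum_phc, Finset.sum_range_succ, ih]
    unfold phm
    push_cast
    field_simp
    ring

theorem phU_node {Φ : ℝ → ℝ} (hc : ConvexOn ℝ (Set.Ici 0) Φ) (hm : MonotoneOn Φ (Set.Ici 0)) {δ : ℝ}
    (hδ : 0 < δ) (j : ℕ) :
    phU Φ δ (ENNReal.ofReal (((j:ℝ) + 1) * δ)) = ENNReal.ofReal (Φ (j * δ) - Φ 0) := by
  unfold phU
  rw [tsum_eq_sum (s := Finset.range j), ← sum_node Φ hδ j, ENNReal.ofReal_sum_of_nonneg]
  · apply Finset.sum_congr rfl
    intro k hk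
    rw [ENNReal.ofReal_mul (phc_nonneg hc hm hδ k), ENNReal.ofReal_sub _ (by positivity)]
  · intro k hk
    apply mul_nonneg (phc_nonneg hc hm hδ k)
    have : (k:ℝ) < j := by exact_mod_cast Finset.mem_range.1 hk
    nlinarith
  · intro k hk
    have hjk : (j:ℝ) ≤ k := by
      have : j ≤ k := by simpa using hk
      exact_mod_cast this
    rw [tsub_eq_zero_of_le, mul_zero]
    apply ENNReal.ofReal_le_ofReal
    nlinarith

theorem phU_mono (Φ : ℝ → ℝ) (δ : ℝ) : Monotone (phU Φ δ) := by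
  intro τ τ' h
  unfold phU
  apply ENNReal.tsum_le_tsum
  intro k
  gcongr

/-- the upper bound for finite arguments -/
theorem phU_le {Φ : ℝ → ℝ} (hc : ConvexOn ℝ (Set.Ici 0) Φ) (hm : MonotoneOn Φ (Set.Ici 0)) {δ : ℝ}
    (hδ : 0 < δ) (t : ℝ≥0) : phU Φ δ t ≤ ENNReal.ofReal (Φ t - Φ 0) := by
  set j := ⌊(t:ℝ) / δ⌋₊ with hj
  have h1 : (j:ℝ) * δ ≤ t := by
    have := Nat.floor_le (show 0 ≤ (t:ℝ) / δ by positivity)
    rw [← hj] at this
    rwa [le_div_iff₀ hδ] at this
  have h2 : (t:ℝ) < ((j:ℝ) + 1) * δ := by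
    have := Nat.lt_floor_add_one ((t:ℝ) / δ)
    rw [← hj, div_lt_iff₀ hδ] at this
    exact this
  calc phU Φ δ t ≤ phU Φ δ (ENNReal.ofReal (((j:ℝ) + 1) * δ)) := by
        apply phU_mono
        rw [← ENNReal.ofReal_coe_nnreal]
        exact ENNReal.ofReal_le_ofReal h2.le
    _ = ENNReal.ofReal (Φ (j * δ) - Φ 0) := phU_node hc hm hδ j
    _ ≤ _ := by
        apply ENNReal.ofReal_le_ofReal
        have := hm (a := (j:ℝ) * δ) (b := (t:ℝ)) (by simp only [Set.mem_Ici]; positivity)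
          (by simp only [Set.mem_Ici]; positivity) h1
        linarith

/-- the lower bound for finite arguments -/
theorem le_phU {Φ : ℝ → ℝ} (hc : ConvexOn ℝ (Set.Ici 0) Φ) (hm : MonotoneOn Φ (Set.Ici 0)) {δ : ℝ}
    (hδ : 0 < δ) (t : ℝ≥0) (ht : 2 * δ ≤ t) : ENNReal.ofReal (Φ (t - 2 * δ) - Φ 0) ≤ phU Φ δ t := by
  set j := ⌊(t:ℝ) / δ⌋₊ with hj
  have h1 : (j:ℝ) * δ ≤ t := by
    have := Nat.floor_le (show 0 ≤ (t:ℝ) / δ by positivity)
    rw [← hj] at this
    rwa [le_div_iff₀ hδ] at this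
  have h2 : (t:ℝ) < ((j:ℝ) + 1) * δ := by
    have := Nat.lt_floor_add_one ((t:ℝ) / δ)
    rw [← hj, div_lt_iff₀ hδ] at this
    exact this
  have hj1 : 1 ≤ j := by
    rw [hj, Nat.le_floor_iff (by positivity)]
    rw [le_div_iff₀ hδ]
    push_cast
    nlinarith
  obtain ⟨i, hi⟩ : ∃ i, j = i + 1 := ⟨j - 1, by omega⟩
  rw [hi] at h1 h2
  push_cast at h1 h2
  calc ENNReal.ofReal (Φ (t - 2 * δ) - Φ 0) ≤ ENNReal.ofReal (Φ (i * δ) - Φ 0) := by
        apply ENNReal.ofReal_le_ofReal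
        have := hm (a := (t:ℝ) - 2 * δ) (b := (i:ℝ) * δ) (by simp only [Set.mem_Ici]; linarith)
          (by simp only [Set.mem_Ici]; positivity) (by nlinarith)
        linarith
    _ = phU Φ δ (ENNReal.ofReal (((i:ℝ) + 1) * δ)) := (phU_node hc hm hδ i).symm
    _ ≤ phU Φ δ t := by
        apply phU_mono
        rw [← ENNReal.ofReal_coe_nnreal]
        exact ENNReal.ofReal_le_ofReal h1

/-- the function `Ψ` -/
noncomputable def phP (Φ : ℝ → ℝ) (τ : ℝ≥0∞) : ℝ≥0∞ :=
  ⨆ s : ℝ≥0, ⨆ (_ : (s : ℝ≥0∞) ≤ τ), ENNReal.ofReal (Φ s - Φ 0)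

theorem phU_le_phP {Φ : ℝ → ℝ} (hc : ConvexOn ℝ (Set.Ici 0) Φ) (hm : MonotoneOn Φ (Set.Ici 0)) {δ : ℝ}
    (hδ : 0 < δ) (τ : ℝ≥0∞) : phU Φ δ τ ≤ phP Φ τ := by
  induction τ using ENNReal.recTopCoe with
  | coe t =>
    refine (phU_le hc hm hδ t).trans ?_
    exact le_iSup₂ (f := fun (s : ℝ≥0) (_ : (s : ℝ≥0∞) ≤ (t : ℝ≥0∞)) => ENNReal.ofReal (Φ s - Φ 0)) t le_rfl
  | top =>
    by_cases hall : ∀ k, ENNReal.ofReal (phc Φ δ k) = 0
    · unfold phU
      simp [hall]
    · push Not at hall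
      obtain ⟨k, hk⟩ := hall
      have hfin : ∀ n : ℕ, ENNReal.ofReal (phc Φ δ k) * ((n:ℝ≥0∞) - ENNReal.ofReal ((k + 1) * δ)) ≤ phP Φ ⊤ := by
        intro n
        calc ENNReal.ofReal (phc Φ δ k) * ((n:ℝ≥0∞) - ENNReal.ofReal ((k + 1) * δ))
            ≤ phU Φ δ (n:ℝ≥0∞) := by
              unfold phU
              exact ENNReal.le_tsum (f := fun k : ℕ => ENNReal.ofReal (phc Φ δ k) *
                ((n:ℝ≥0∞) - ENNReal.ofReal ((k + 1) * δ))) k
          _ ≤ ENNReal.ofReal (Φ ((n:ℝ≥0):ℝ) - Φ 0) := by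
              have := phU_le hc hm hδ (n:ℝ≥0)
              simpa using this
          _ ≤ phP Φ ⊤ := le_iSup₂ (f := fun (s : ℝ≥0) (_ : (s : ℝ≥0∞) ≤ (⊤ : ℝ≥0∞)) =>
                ENNReal.ofReal (Φ s - Φ 0)) (n:ℝ≥0) le_top
      have htop : phP Φ ⊤ = ⊤ := by
        have hl : Filter.Tendsto (fun n : ℕ => ENNReal.ofReal (phc Φ δ k) *
            ((n:ℝ≥0∞) - ENNReal.ofReal ((k + 1) * δ))) Filter.atTop (nhds ⊤) := by
          have h1 : Filter.Tendsto (fun n : ℕ => ((n:ℝ≥0∞) - ENNReal.ofReal ((k + 1) * δ))) Filter.atTop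
              (nhds (⊤ - ENNReal.ofReal ((k + 1) * δ))) :=
            ENNReal.Tendsto.sub ENNReal.tendsto_nat_nhds_top tendsto_const_nhds (Or.inr ENNReal.ofReal_ne_top)
          rw [ENNReal.top_sub ENNReal.ofReal_ne_top] at h1
          have h2 := ENNReal.Tendsto.const_mul (a := ENNReal.ofReal (phc Φ δ k)) h1 (Or.inl (by simp))
          rwa [ENNReal.mul_top hk] at h2
        exact top_le_iff.1 (le_of_tendsto' hl hfin)
      rw [htop]
      exact le_top

theorem phP_le_liminf {Φ : ℝ → ℝ} (hc : ConvexOn ℝ (Set.Ici 0) Φ) (hm : MonotoneOn Φ (Set.Ici 0)) (τ : ℝ≥0∞) :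
    phP Φ τ ≤ Filter.liminf (fun n : ℕ => phU Φ (1 / ((n:ℝ) + 1)) τ) Filter.atTop := by
  apply iSup₂_le
  intro s hs
  rcases eq_or_lt_of_le (zero_le (a := s)) with h0 | h0
  · rw [← h0]
    simp
  · have hs0 : (0:ℝ) < s := by exact_mod_cast h0
    have hcont : ContinuousAt Φ s := by
      have h1 : ContinuousOn Φ (interior (Set.Ici (0:ℝ))) := hc.continuousOn_interior
      rw [interior_Ici] at h1
      exact h1.continuousAt (Ioi_mem_nhds hs0)
    have hδ0 : Filter.Tendsto (fun n : ℕ => 1 / ((n:ℝ) + 1)) Filter.atTop (nhds 0) :=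
      tendsto_one_div_add_atTop_nhds_zero_nat
    have harg : Filter.Tendsto (fun n : ℕ => (s:ℝ) - 2 * (1 / ((n:ℝ) + 1))) Filter.atTop (nhds s) := by
      have := (tendsto_const_nhds (x := (s:ℝ))).sub (hδ0.const_mul 2)
      simpa using this
    have hlim : Filter.Tendsto (fun n : ℕ => ENNReal.ofReal (Φ ((s:ℝ) - 2 * (1 / ((n:ℝ) + 1))) - Φ 0))
        Filter.atTop (nhds (ENNReal.ofReal (Φ s - Φ 0))) :=
      ENNReal.tendsto_ofReal ((hcont.tendsto.comp harg).sub_const _)
    rw [← hlim.liminf_eq]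
    refine Filter.liminf_le_liminf ?_
    have hev : ∀ᶠ n : ℕ in Filter.atTop, 1 / ((n:ℝ) + 1) < s / 2 :=
      (tendsto_order.1 hδ0).2 _ (by positivity)
    filter_upwards [hev] with n hn
    refine (le_phU hc hm (by positivity) s (by linarith)).trans ?_
    exact phU_mono _ _ hs

theorem phi_ineq {X : Type*} [MeasurableSpace X] (μ : Measure X) (F F' : X → ℝ≥0∞) (hF : Measurable F)
    (hF' : Measurable F') (h : ∀ l : ℝ≥0, ∫⁻ u, (F u - l) ∂μ ≤ ∫⁻ u, (F' u - l) ∂μ)
    (Φ : ℝ → ℝ) (hc : ConvexOn ℝ (Set.Ici 0) Φ) (hm : MonotoneOn Φ (Set.Ici 0)) :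
    ∫⁻ u, (⨆ s : ℝ≥0, ⨆ (_ : (s : ℝ≥0∞) ≤ F u), ENNReal.ofReal (Φ s - Φ 0)) ∂μ ≤
      ∫⁻ u, (⨆ s : ℝ≥0, ⨆ (_ : (s : ℝ≥0∞) ≤ F' u), ENNReal.ofReal (Φ s - Φ 0)) ∂μ := by
  change ∫⁻ u, phP Φ (F u) ∂μ ≤ ∫⁻ u, phP Φ (F' u) ∂μ
  have hint : ∀ (δ : ℝ) (G : X → ℝ≥0∞), Measurable G → ∫⁻ u, phU Φ δ (G u) ∂μ =
      ∑' k : ℕ, ENNReal.ofReal (phc Φ δ k) * ∫⁻ u, (G u - ENNReal.ofReal ((k + 1) * δ)) ∂μ := by
    intro δ G hG
    unfold phU
    rw [lintegral_tsum]
    · congr 1
      ext k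
      rw [lintegral_const_mul]
      exact hG.sub measurable_const
    · intro k
      exact ((hG.sub measurable_const).const_mul _).aemeasurable
  have hstep : ∀ n : ℕ, ∫⁻ u, phU Φ (1 / ((n:ℝ) + 1)) (F u) ∂μ ≤ ∫⁻ u, phP Φ (F' u) ∂μ := by
    intro n
    calc ∫⁻ u, phU Φ (1 / ((n:ℝ) + 1)) (F u) ∂μ ≤ ∫⁻ u, phU Φ (1 / ((n:ℝ) + 1)) (F' u) ∂μ := by
          rw [hint _ F hF, hint _ F' hF']
          apply ENNReal.tsum_le_tsum
          intro k
          exact mul_le_mul_right (h (Real.toNNReal ((k + 1) * (1 / ((n:ℝ) + 1))))) _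
      _ ≤ _ := lintegral_mono (fun u => phU_le_phP hc hm (by positivity) _)
  have hmeas : ∀ n : ℕ, Measurable (fun u => phU Φ (1 / ((n:ℝ) + 1)) (F u)) := by
    intro n
    unfold phU
    apply Measurable.ennreal_tsum
    intro k
    exact (hF.sub measurable_const).const_mul _
  calc ∫⁻ u, phP Φ (F u) ∂μ
      ≤ ∫⁻ u, Filter.liminf (fun n : ℕ => phU Φ (1 / ((n:ℝ) + 1)) (F u)) Filter.atTop ∂μ :=
        lintegral_mono (fun u => phP_le_liminf hc hm _)
    _ ≤ Filter.liminf (fun n : ℕ => ∫⁻ u, phU Φ (1 / ((n:ℝ) + 1)) (F u) ∂μ) Filter.atTop :=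
        lintegral_liminf_le hmeas
    _ ≤ Filter.liminf (fun _ : ℕ => ∫⁻ u, phP Φ (F' u) ∂μ) Filter.atTop :=
        Filter.liminf_le_liminf (Filter.Eventually.of_forall hstep)
    _ = _ := Filter.liminf_const _

end RC
end

section

/-!
# RC Trunc2: the inequality for functions and truncations, with the rearrangements given by their level sets

The statements of `Trunc`, with the hypothesis on the rearrangements in the form: every superlevel set is almost everywhere a cap about `N`.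
`upset_ae_cap_on`: this holds for a function which is, off `N`, a monotone function of `⟪x, N⟫ < 1` (it may be unbounded near `N`).
-/

set_option autoImplicit false

open MeasureTheory Module
open scoped ENNReal NNReal

namespace RC

variable {E : Type*} [NormedAddCommGroup E] [InnerProductSpace ℝ E] [MeasurableSpace E]
  [BorelSpace E] [FiniteDimensional ℝ E]

theorem upset_ae_cap_on (hn : 2 ≤ finrank ℝ E) {N : E} (hN : ‖N‖ = 1) (φ : ℝ → ℝ≥0)
    (hφ : MonotoneOn φ (Set.Iio 1)) (fs : E → ℝ≥0)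
    (hfs : ∀ x, ‖x‖ = 1 → x ≠ N → fs x = φ (inner ℝ x N)) (t : ℝ≥0) :
    ∃ c : ℝ, {x | t < fs x} =ᵐ[om E] cap N c := by
  set ψ : ℝ → ℝ≥0 := fun s => if s < 1 then min (φ s) (t + 1) else t + 1 with hψdef
  have hψ : Monotone ψ := by
    intro s s' hs
    simp only [hψdef]
    split_ifs with h1 h2 h2
    · exact min_le_min_right _ (hφ h1 h2 hs)
    · exact min_le_right _ _
    · exact absurd (lt_of_le_of_lt hs h2) h1
    · exact le_rfl
  obtain ⟨c, hc⟩ := upset_ae_cap hn hN ψ hψ (fun x => ψ (inner ℝ x N)) (fun x _ => rfl) t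
  refine ⟨c, Filter.EventuallyEq.trans ?_ hc⟩
  have hlev : ∀ᵐ x ∂(om E), inner ℝ x N ≠ 1 := by
    rw [ae_iff]
    refine measure_mono_null ?_ (level_null hn hN 1)
    intro x hx
    exact not_not.1 hx
  rw [Filter.eventuallyEq_set]
  filter_upwards [om_norm (E := E), hlev] with x hx hx2
  have hle : (inner ℝ x N : ℝ) ≤ 1 := by
    have h3 := real_inner_le_norm x N
    rwa [hx, hN, mul_one] at h3
  have hlt : (inner ℝ x N : ℝ) < 1 := lt_of_le_of_ne hle hx2
  have hxN : x ≠ N := by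
    intro h
    apply hx2
    rw [h, real_inner_self_eq_norm_sq, hN, one_pow]
  change (t < fs x) ↔ (t < ψ (inner ℝ x N))
  rw [hfs x hx hxN]
  simp only [hψdef, if_pos hlt, lt_min_iff]
  constructor
  · intro h
    exact ⟨h, lt_add_of_pos_right t one_pos⟩
  · intro h
    exact h.1

theorem T_ineq2 (hn : 2 ≤ finrank ℝ E) {N : E} (hN : ‖N‖ = 1) (f g fs gs : E → ℝ≥0)
    (hf : Measurable f) (hg : Measurable g) (hfs : Measurable fs) (hgs : Measurable gs)
    (h1 : ∀ t : ℝ≥0, om E {x | t < fs x} = om E {x | t < f x})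
    (h2 : ∀ t : ℝ≥0, om E {x | t < gs x} = om E {x | t < g x})
    (h3 : ∀ t : ℝ≥0, ∃ c : ℝ, {x | t < fs x} =ᵐ[om E] cap N c)
    (h4 : ∀ t : ℝ≥0, ∃ c : ℝ, {x | t < gs x} =ᵐ[om E] cap N c)
    (hball : ∀ t : ℝ≥0, ∃ (a : E) (r : ℝ), ‖a‖ = 1 ∧ {x | t < g x} =ᵐ[om E] cap a r)
    {U : Set E} (hU : MeasurableSet U) {b : ℝ} (hUb : om E U = om E (band N b)) :
    ∫⁻ u in U, conv f g u ∂(om E) ≤ ∫⁻ u in band N b, conv fs gs u ∂(om E) := by
  rw [layer f g hf hg hU, layer fs gs hfs hgs (measurableSet_band N b)]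
  refine lintegral_mono fun s => lintegral_mono fun t => ?_
  obtain ⟨c, hc⟩ := h3 s.toNNReal
  obtain ⟨r', hr'⟩ := h4 t.toNNReal
  obtain ⟨a, r, ha, hr⟩ := hball t.toNNReal
  have hcap : cap N r' =ᵐ[om E] cap N r := by
    apply cap_ae
    calc om E (cap N r') = om E {x | t.toNNReal < gs x} := (measure_congr hr').symm
      _ = om E {x | t.toNNReal < g x} := h2 _
      _ = om E (cap a r) := measure_congr hr
      _ = om E (cap N r) := om_cap ha hN r
  have hA : MeasurableSet {y | s.toNNReal < f y} := measurableSet_lt measurable_const hf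
  have hAc : om E {y | s.toNNReal < f y} = om E (cap N c) :=
    (h1 _).symm.trans (measure_congr hc)
  have hL : ∫⁻ u in U, convS {y | s.toNNReal < f y} {y | t.toNNReal < g y} u ∂(om E) =
      ∫⁻ u in U, convS {y | s.toNNReal < f y} (cap a r) u ∂(om E) := by
    apply lintegral_congr_ae
    filter_upwards [ae_restrict_of_ae (om_norm (E := E))] with u hu
    exact convS_congr Filter.EventuallyEq.rfl hr hu
  have hR : ∫⁻ u in band N b, convS {y | s.toNNReal < fs y} {y | t.toNNReal < gs y} u ∂(om E) =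
      ∫⁻ u in band N b, convS (cap N c) (cap N r) u ∂(om E) := by
    apply lintegral_congr_ae
    filter_upwards [ae_restrict_of_ae (om_norm (E := E))] with u hu
    exact convS_congr hc (hr'.trans hcap) hu
  rw [hL, hR]
  exact set_ineq hn ha hN hA hU hAc hUb

theorem trunc2 (hn : 2 ≤ finrank ℝ E) {N : E} (hN : ‖N‖ = 1) (f g fs gs : E → ℝ≥0)
    (hf : Measurable f) (hg : Measurable g) (hfs : Measurable fs) (hgs : Measurable gs)
    (h1 : ∀ t : ℝ≥0, om E {x | t < fs x} = om E {x | t < f x})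
    (h2 : ∀ t : ℝ≥0, om E {x | t < gs x} = om E {x | t < g x})
    (h3 : ∀ t : ℝ≥0, ∃ c : ℝ, {x | t < fs x} =ᵐ[om E] cap N c)
    (h4 : ∀ t : ℝ≥0, ∃ c : ℝ, {x | t < gs x} =ᵐ[om E] cap N c)
    (hball : ∀ t : ℝ≥0, ∃ (a : E) (r : ℝ), ‖a‖ = 1 ∧ {x | t < g x} =ᵐ[om E] cap a r) (l : ℝ≥0) :
    ∫⁻ u, (conv f g u - l) ∂(om E) ≤ ∫⁻ u, (conv fs gs u - l) ∂(om E) := by
  set U : Set E := {u | (l : ℝ≥0∞) < conv f g u} with hUdef
  have hm : Measurable (conv f g) := measurable_conv f g hf hg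
  have hms : Measurable (conv fs gs) := measurable_conv fs gs hfs hgs
  have hU : MeasurableSet U := measurableSet_lt measurable_const hm
  obtain ⟨b, hb⟩ := exists_band hn hN (om E U) (measure_mono (Set.subset_univ _))
  have hT := T_ineq2 hn hN f g fs gs hf hg hfs hgs h1 h2 h3 h4 hball hU hb.symm
  have hfin : (l : ℝ≥0∞) * om E U ≠ ⊤ :=
    ENNReal.mul_ne_top ENNReal.coe_ne_top (measure_ne_top _ _)
  have e1 : ∫⁻ u, (conv f g u - l) ∂(om E) = ∫⁻ u in U, (conv f g u - l) ∂(om E) := by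
    rw [← lintegral_add_compl _ hU]
    have : ∫⁻ u in Uᶜ, (conv f g u - l) ∂(om E) = 0 := by
      rw [setLIntegral_congr_fun hU.compl (g := fun _ => 0)]
      · simp
      · intro u hu
        have hu' : ¬ (l : ℝ≥0∞) < conv f g u := hu
        exact tsub_eq_zero_of_le (not_lt.1 hu')
    rw [this, add_zero]
  have e2 : ∫⁻ u in U, (conv f g u - l) ∂(om E) + l * om E U = ∫⁻ u in U, conv f g u ∂(om E) := by
    rw [← setLIntegral_const, ← lintegral_add_right _ measurable_const]
    apply setLIntegral_congr_fun hU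
    intro u hu
    have hu' : (l : ℝ≥0∞) < conv f g u := hu
    exact tsub_add_cancel_of_le hu'.le
  have e3 : ∫⁻ u in band N b, conv fs gs u ∂(om E) ≤
      ∫⁻ u, (conv fs gs u - l) ∂(om E) + l * om E U := by
    calc ∫⁻ u in band N b, conv fs gs u ∂(om E)
        ≤ ∫⁻ u in band N b, ((conv fs gs u - l) + l) ∂(om E) :=
          lintegral_mono fun u => le_tsub_add
      _ = ∫⁻ u in band N b, (conv fs gs u - l) ∂(om E) + l * om E (band N b) := by
          rw [lintegral_add_right _ measurable_const, setLIntegral_const]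
      _ ≤ ∫⁻ u, (conv fs gs u - l) ∂(om E) + l * om E U := by
          rw [hb]
          exact add_le_add (setLIntegral_le_lintegral _ _) le_rfl
  have e4 := (e2.le.trans (hT.trans e3))
  rw [e1]
  exact (ENNReal.add_le_add_iff_right hfin).1 e4

end RC
end
end
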