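import Mathlib
import Pool.Agent.Lib.MP_91315a_an.SetIneq
import Pool.Agent.Lib.MP_91315a_an.Layer

/-!
# RC Trunc: the inequality for functions and truncations (medium)

`T_ineq`: `layer` on both sides; for fixed `s, t` let `A = {s < f}`, `{s < fs}` is a.e. a cap `cap N c` (`upset_ae_cap`) and `om A = om (cap N c)`;
`{t < g}` is a.e. `cap a r` by hypothesis, `{t < gs}` is a.e. a cap `cap N r'` with `om (cap N r') = om {t < g} = om (cap a r) = om (cap N r)` (`om_cap`), so `cap N r' = cap N r` a.e.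
(`cap_ae`). With `convS_congr` the claim for `s, t` is `set_ineq`.
`trunc`: `U = {u | l < conv f g u}` (measurable), `band N b` with the same measure (`exists_band`). `∫ (conv f g - l) + l * om U = ∫_U conv f g ≤ ∫_{band} conv fs gs
≤ ∫ (conv fs gs - l) + l * om (band N b)`, and `l * om U = l * om (band N b) < ⊤` can be cancelled.
-/

set_option autoImplicit false

open MeasureTheory Module
open scoped ENNReal NNReal

namespace RC

variable {E : Type*} [NormedAddCommGroup E] [InnerProductSpace ℝ E] [MeasurableSpace E]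
  [BorelSpace E] [FiniteDimensional ℝ E]

theorem T_ineq (hn : 2 ≤ finrank ℝ E) {N : E} (hN : ‖N‖ = 1) (f g fs gs : E → ℝ≥0)
    (hf : Measurable f) (hg : Measurable g) (hfs : Measurable fs) (hgs : Measurable gs)
    (h1 : ∀ t : ℝ≥0, om E {x | t < fs x} = om E {x | t < f x})
    (h2 : ∀ t : ℝ≥0, om E {x | t < gs x} = om E {x | t < g x})
    (h3 : ∃ φ : ℝ → ℝ≥0, Monotone φ ∧ ∀ x : E, ‖x‖ = 1 → fs x = φ (inner ℝ x N))
    (h4 : ∃ φ : ℝ → ℝ≥0, Monotone φ ∧ ∀ x : E, ‖x‖ = 1 → gs x = φ (inner ℝ x N))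
    (hball : ∀ t : ℝ≥0, ∃ (a : E) (r : ℝ), ‖a‖ = 1 ∧ {x | t < g x} =ᵐ[om E] cap a r)
    {U : Set E} (hU : MeasurableSet U) {b : ℝ} (hUb : om E U = om E (band N b)) :
    ∫⁻ u in U, conv f g u ∂(om E) ≤ ∫⁻ u in band N b, conv fs gs u ∂(om E) := by
  rw [layer f g hf hg hU, layer fs gs hfs hgs (measurableSet_band N b)]
  refine lintegral_mono fun s => lintegral_mono fun t => ?_
  obtain ⟨φ, hφ, hφ'⟩ := h3
  obtain ⟨ψ, hψ, hψ'⟩ := h4
  obtain ⟨c, hc⟩ := upset_ae_cap hn hN φ hφ fs hφ' s.toNNReal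
  obtain ⟨r', hr'⟩ := upset_ae_cap hn hN ψ hψ gs hψ' t.toNNReal
  obtain ⟨a, r, ha, hr⟩ := hball t.toNNReal
  have hcap : cap N r' =ᵐ[om E] cap N r := by
    apply cap_ae
    calc om E (cap N r') = om E {x | t.toNNReal < gs x} := (measure_congr hr').symm
      _ = om E {x | t.toNNReal < g x} := h2 _
      _ = om E (cap a r) := measure_congr hr
      _ = om E (cap N r) := om_cap ha hN r
  have hA : MeasurableSet {y | s.toNNReal < f y} := measurableSet_lt measurable_const hf
  have hAc : om E {y | s.toNNReal < f y} = om E (cap N c) :=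
    (h1 _).symm.trans (measure_congr hc)
  have hL : ∫⁻ u in U, convS {y | s.toNNReal < f y} {y | t.toNNReal < g y} u ∂(om E) =
      ∫⁻ u in U, convS {y | s.toNNReal < f y} (cap a r) u ∂(om E) := by
    apply lintegral_congr_ae
    filter_upwards [ae_restrict_of_ae (om_norm (E := E))] with u hu
    exact convS_congr Filter.EventuallyEq.rfl hr hu
  have hR : ∫⁻ u in band N b, convS {y | s.toNNReal < fs y} {y | t.toNNReal < gs y} u ∂(om E) =
      ∫⁻ u in band N b, convS (cap N c) (cap N r) u ∂(om E) := by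
    apply lintegral_congr_ae
    filter_upwards [ae_restrict_of_ae (om_norm (E := E))] with u hu
    exact convS_congr hc (hr'.trans hcap) hu
  rw [hL, hR]
  exact set_ineq hn ha hN hA hU hAc hUb

theorem trunc (hn : 2 ≤ finrank ℝ E) {N : E} (hN : ‖N‖ = 1) (f g fs gs : E → ℝ≥0)
    (hf : Measurable f) (hg : Measurable g) (hfs : Measurable fs) (hgs : Measurable gs)
    (h1 : ∀ t : ℝ≥0, om E {x | t < fs x} = om E {x | t < f x})
    (h2 : ∀ t : ℝ≥0, om E {x | t < gs x} = om E {x | t < g x})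
    (h3 : ∃ φ : ℝ → ℝ≥0, Monotone φ ∧ ∀ x : E, ‖x‖ = 1 → fs x = φ (inner ℝ x N))
    (h4 : ∃ φ : ℝ → ℝ≥0, Monotone φ ∧ ∀ x : E, ‖x‖ = 1 → gs x = φ (inner ℝ x N))
    (hball : ∀ t : ℝ≥0, ∃ (a : E) (r : ℝ), ‖a‖ = 1 ∧ {x | t < g x} =ᵐ[om E] cap a r) (l : ℝ≥0) :
    ∫⁻ u, (conv f g u - l) ∂(om E) ≤ ∫⁻ u, (conv fs gs u - l) ∂(om E) := by
  set U : Set E := {u | (l : ℝ≥0∞) < conv f g u} with hUdef
  have hm : Measurable (conv f g) := measurable_conv f g hf hg
  have hms : Measurable (conv fs gs) := measurable_conv fs gs hfs hgs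
  have hU : MeasurableSet U := measurableSet_lt measurable_const hm
  obtain ⟨b, hb⟩ := exists_band hn hN (om E U) (measure_mono (Set.subset_univ _))
  have hT := T_ineq hn hN f g fs gs hf hg hfs hgs h1 h2 h3 h4 hball hU hb.symm
  have hfin : (l : ℝ≥0∞) * om E U ≠ ⊤ :=
    ENNReal.mul_ne_top ENNReal.coe_ne_top (measure_ne_top _ _)
  have e1 : ∫⁻ u, (conv f g u - l) ∂(om E) = ∫⁻ u in U, (conv f g u - l) ∂(om E) := by
    rw [← lintegral_add_compl _ hU]
    have : ∫⁻ u in Uᶜ, (conv f g u - l) ∂(om E) = 0 := by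
      rw [setLIntegral_congr_fun hU.compl (g := fun _ => 0)]
      · simp
      · intro u hu
        have hu' : ¬ (l : ℝ≥0∞) < conv f g u := hu
        exact tsub_eq_zero_of_le (not_lt.1 hu')
    rw [this, add_zero]
  have e2 : ∫⁻ u in U, (conv f g u - l) ∂(om E) + l * om E U = ∫⁻ u in U, conv f g u ∂(om E) := by
    rw [← setLIntegral_const, ← lintegral_add_right _ measurable_const]
    apply setLIntegral_congr_fun hU
    intro u hu
    have hu' : (l : ℝ≥0∞) < conv f g u := hu
    exact tsub_add_cancel_of_le hu'.le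
  have e3 : ∫⁻ u in band N b, conv fs gs u ∂(om E) ≤
      ∫⁻ u, (conv fs gs u - l) ∂(om E) + l * om E U := by
    calc ∫⁻ u in band N b, conv fs gs u ∂(om E)
        ≤ ∫⁻ u in band N b, ((conv fs gs u - l) + l) ∂(om E) :=
          lintegral_mono fun u => le_tsub_add
      _ = ∫⁻ u in band N b, (conv fs gs u - l) ∂(om E) + l * om E (band N b) := by
          rw [lintegral_add_right _ measurable_const, setLIntegral_const]
      _ ≤ ∫⁻ u, (conv fs gs u - l) ∂(om E) + l * om E U := by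
          rw [hb]
          exact add_le_add (setLIntegral_le_lintegral _ _) le_rfl
  have e4 := (e2.le.trans (hT.trans e3))
  rw [e1]
  exact (ENNReal.add_le_add_iff_right hfin).1 e4

end RC
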