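import Mathlib
import Pool.Agent.Lib.MP_91315a_an.Trunc2

/-!
# RC Main2: the rearrangement inequality when the superlevel sets of one function are balls

As `Main`, for rearrangements which may be unbounded near `N`.
-/

set_option autoImplicit false

open MeasureTheory Module
open scoped ENNReal NNReal

namespace RC

theorem main_g2 (d : ℕ) (hd : 2 ≤ d) (ω : Measure (EuclideanSpace ℝ (Fin (d+1))))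
    (hω : ω = ((volume : Measure (EuclideanSpace ℝ (Fin (d+1)))).toSphere).map Subtype.val)
    (N : EuclideanSpace ℝ (Fin (d+1))) (hN : ‖N‖ = 1)
    (f g fs gs : EuclideanSpace ℝ (Fin (d+1)) → ℝ≥0)
    (hf : Measurable f) (hg : Measurable g) (hfs : Measurable fs) (hgs : Measurable gs)
    (h1 : ∀ t : ℝ≥0, ω {x | t < fs x} = ω {x | t < f x})
    (h2 : ∀ t : ℝ≥0, ω {x | t < gs x} = ω {x | t < g x})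
    (h3 : ∃ φ : ℝ → ℝ≥0, MonotoneOn φ (Set.Iio 1) ∧ ∀ x : EuclideanSpace ℝ (Fin (d+1)), ‖x‖ = 1 →
        x ≠ N → fs x = φ (inner ℝ x N))
    (h4 : ∃ φ : ℝ → ℝ≥0, MonotoneOn φ (Set.Iio 1) ∧ ∀ x : EuclideanSpace ℝ (Fin (d+1)), ‖x‖ = 1 →
        x ≠ N → gs x = φ (inner ℝ x N))
    (hball : ∀ t : ℝ≥0, ∃ (a : EuclideanSpace ℝ (Fin (d+1))) (r : ℝ), ‖a‖ = 1 ∧
        ∀ᵐ x ∂ω, (t < g x ↔ r < inner ℝ x a))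
    (Φ : ℝ → ℝ) (hc : ConvexOn ℝ (Set.Ici 0) Φ) (hm : MonotoneOn Φ (Set.Ici 0)) :
    ∫⁻ u, (⨆ s : ℝ≥0, ⨆ (_ : (s : ℝ≥0∞) ≤
        ∫⁻ y, (f y : ℝ≥0∞) * (g (y - (2 * inner ℝ y u) • u) : ℝ≥0∞) ∂ω),
        ENNReal.ofReal (Φ s - Φ 0)) ∂ω
      ≤
    ∫⁻ u, (⨆ s : ℝ≥0, ⨆ (_ : (s : ℝ≥0∞) ≤
        ∫⁻ y, (fs y : ℝ≥0∞) * (gs (y - (2 * inner ℝ y u) • u) : ℝ≥0∞) ∂ω),
        ENNReal.ofReal (Φ s - Φ 0)) ∂ω := by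
  subst hω
  have hn : 2 ≤ finrank ℝ (EuclideanSpace ℝ (Fin (d+1))) := by
    rw [finrank_euclideanSpace, Fintype.card_fin]; omega
  have hb : ∀ t : ℝ≥0, ∃ (a : EuclideanSpace ℝ (Fin (d+1))) (r : ℝ), ‖a‖ = 1 ∧
      {x | t < g x} =ᵐ[om (EuclideanSpace ℝ (Fin (d+1)))] cap a r := by
    intro t
    obtain ⟨a, r, ha, har⟩ := hball t
    refine ⟨a, r, ha, ?_⟩
    filter_upwards [har] with x hx
    exact propext hx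
  obtain ⟨φ, hφ, hφ'⟩ := h3
  obtain ⟨ψ, hψ, hψ'⟩ := h4
  exact phi_ineq (om (EuclideanSpace ℝ (Fin (d+1)))) (conv f g) (conv fs gs)
    (measurable_conv f g hf hg) (measurable_conv fs gs hfs hgs)
    (fun l => trunc2 hn hN f g fs gs hf hg hfs hgs h1 h2 (upset_ae_cap_on hn hN φ hφ fs hφ')
      (upset_ae_cap_on hn hN ψ hψ gs hψ') hb l) Φ hc hm

theorem main_f2 (d : ℕ) (hd : 2 ≤ d) (ω : Measure (EuclideanSpace ℝ (Fin (d+1))))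
    (hω : ω = ((volume : Measure (EuclideanSpace ℝ (Fin (d+1)))).toSphere).map Subtype.val)
    (N : EuclideanSpace ℝ (Fin (d+1))) (hN : ‖N‖ = 1)
    (f g fs gs : EuclideanSpace ℝ (Fin (d+1)) → ℝ≥0)
    (hf : Measurable f) (hg : Measurable g) (hfs : Measurable fs) (hgs : Measurable gs)
    (h1 : ∀ t : ℝ≥0, ω {x | t < fs x} = ω {x | t < f x})
    (h2 : ∀ t : ℝ≥0, ω {x | t < gs x} = ω {x | t < g x})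
    (h3 : ∃ φ : ℝ → ℝ≥0, MonotoneOn φ (Set.Iio 1) ∧ ∀ x : EuclideanSpace ℝ (Fin (d+1)), ‖x‖ = 1 →
        x ≠ N → fs x = φ (inner ℝ x N))
    (h4 : ∃ φ : ℝ → ℝ≥0, MonotoneOn φ (Set.Iio 1) ∧ ∀ x : EuclideanSpace ℝ (Fin (d+1)), ‖x‖ = 1 →
        x ≠ N → gs x = φ (inner ℝ x N))
    (hball : ∀ t : ℝ≥0, ∃ (a : EuclideanSpace ℝ (Fin (d+1))) (r : ℝ), ‖a‖ = 1 ∧
        ∀ᵐ x ∂ω, (t < f x ↔ r < inner ℝ x a))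
    (Φ : ℝ → ℝ) (hc : ConvexOn ℝ (Set.Ici 0) Φ) (hm : MonotoneOn Φ (Set.Ici 0)) :
    ∫⁻ u, (⨆ s : ℝ≥0, ⨆ (_ : (s : ℝ≥0∞) ≤
        ∫⁻ y, (f y : ℝ≥0∞) * (g (y - (2 * inner ℝ y u) • u) : ℝ≥0∞) ∂ω),
        ENNReal.ofReal (Φ s - Φ 0)) ∂ω
      ≤
    ∫⁻ u, (⨆ s : ℝ≥0, ⨆ (_ : (s : ℝ≥0∞) ≤
        ∫⁻ y, (fs y : ℝ≥0∞) * (gs (y - (2 * inner ℝ y u) • u) : ℝ≥0∞) ∂ω),
        ENNReal.ofReal (Φ s - Φ 0)) ∂ω := by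
  have key := main_g2 d hd ω hω N hN g f gs fs hg hf hgs hfs h2 h1 h4 h3 hball Φ hc hm
  subst hω
  have e1 : ∀ᵐ u ∂(om (EuclideanSpace ℝ (Fin (d+1)))),
      (⨆ s : ℝ≥0, ⨆ (_ : (s : ℝ≥0∞) ≤ conv f g u), ENNReal.ofReal (Φ s - Φ 0)) =
      (⨆ s : ℝ≥0, ⨆ (_ : (s : ℝ≥0∞) ≤ conv g f u), ENNReal.ofReal (Φ s - Φ 0)) := by
    filter_upwards [om_norm] with u hu
    rw [conv_symm f g hu]
  have e2 : ∀ᵐ u ∂(om (EuclideanSpace ℝ (Fin (d+1)))),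
      (⨆ s : ℝ≥0, ⨆ (_ : (s : ℝ≥0∞) ≤ conv fs gs u), ENNReal.ofReal (Φ s - Φ 0)) =
      (⨆ s : ℝ≥0, ⨆ (_ : (s : ℝ≥0∞) ≤ conv gs fs u), ENNReal.ofReal (Φ s - Φ 0)) := by
    filter_upwards [om_norm] with u hu
    rw [conv_symm fs gs hu]
  calc _ = ∫⁻ u, (⨆ s : ℝ≥0, ⨆ (_ : (s : ℝ≥0∞) ≤ conv g f u), ENNReal.ofReal (Φ s - Φ 0))
        ∂(om (EuclideanSpace ℝ (Fin (d+1)))) := lintegral_congr_ae e1
    _ ≤ ∫⁻ u, (⨆ s : ℝ≥0, ⨆ (_ : (s : ℝ≥0∞) ≤ conv gs fs u), ENNReal.ofReal (Φ s - Φ 0))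
        ∂(om (EuclideanSpace ℝ (Fin (d+1)))) := key
    _ = _ := (lintegral_congr_ae e2).symm

end RC
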